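import Pool.Agent.Helper58.IQ.S2c
import Pool.Agent.Helper58.FS.Sel
import Pool.Agent.Helper99.FS.SelC
import Pool.Agent.Helper98.FS.Arith
import Pool.Agent.Helper99.IS.Hilbert90
import Pool.Agent.Helper69.RY.Kummer
import Pool.Agent.Helper3.FS.Bridge
import Pool.Agent.Helper3.FS.Ar3

/-!
# The fine Selmer groups for `p = 3`: isomorphisms and direct sums
-/

open scoped NumberField

namespace Pool.Agent.Helper58.P3

open Pool.Agent.Helper58.IQ Pool.Agent.Helper58.FS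

variable {K : Type*} [Field K]

/-- The fine Selmer group of `M` over the cyclotomic `ℤ_3`-extension of `K` is finite. -/
def A3 {M : Type*} [AddCommGroup M] (ρ : GK K →* AddMonoid.End M) : Prop :=
  FinSel ρ (Gcyc K 3)

theorem a3_iso {M N : Type*} [AddCommGroup M] [AddCommGroup N] {ρ : GK K →* AddMonoid.End M}
    {σ : GK K →* AddMonoid.End N} (h : Iso ρ σ) : A3 ρ ↔ A3 σ :=
  Pool.Agent.Helper99.FS.sel_iso h _

variable [NumberField K]

theorem sel_ext {p : ℕ} [Fact p.Prime] (hp : p ≠ 2) {M : Type*} [AddCommGroup M] [Finite M]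
    (ρ : GK K →* AddMonoid.End M) (hρ : ∀ x : M, IsOpen {g : GK K | ρ g x = x})
    (hk : ∃ k : ℕ, ∀ x : M, p ^ k • x = 0) (N : AddSubgroup M)
    (hN : ∀ g, ∀ x ∈ N, ρ g x ∈ N) (L : Subgroup (GK K)) (hL : IsOpen (L : Set (GK K)))
    (h1 : FinSel (subRep ρ N hN) (L ⊓ Gcyc K p)) (h2 : FinSel (quoRep ρ N hN) (L ⊓ Gcyc K p)) :
    FinSel ρ (L ⊓ Gcyc K p) := by
  have : Algebra.IsAlgebraic ℚ (Kb K) := Algebra.IsAlgebraic.trans ℚ K (Kb K)
  exact Pool.Agent.Helper99.FS.sel_ext_of p (Pool.Agent.Helper98.FS.arith p hp) ρ hρ hk N hN L hL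
    h1 h2

theorem a3_ext {M : Type*} [AddCommGroup M] [Finite M]
    (ρ : GK K →* AddMonoid.End M) (hρ : ∀ x : M, IsOpen {g : GK K | ρ g x = x})
    (hk : ∀ x : M, 3 • x = 0) (N : AddSubgroup M)
    (hN : ∀ g, ∀ x ∈ N, ρ g x ∈ N) (h1 : A3 (subRep ρ N hN)) (h2 : A3 (quoRep ρ N hN)) :
    A3 ρ := by
  have h := sel_ext (p := 3) (by norm_num) ρ hρ ⟨1, by simpa using hk⟩ N hN ⊤ isOpen_univ
  rw [top_inf_eq] at h
  exact h h1 h2

theorem qch_locConst (d : K) : IsLocallyConstant (qch d : GK K → ℤˣ) := by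
  apply Pool.Agent.Helper69.RY.isLocallyConstant_of _ {g : GK K | g (sqr d) = sqr d}
    (Pool.Agent.Helper99.IS.isOpen_fix _) rfl
  intro g h hh
  have h1 : qch d h = 1 := by
    classical
    change (if h (sqr d) = sqr d then (1 : ℤˣ) else -1) = 1
    exact if_pos hh
  rw [map_mul, h1, mul_one]

theorem cont_chRep {χ : GK K →* ℤˣ} (hχ : IsLocallyConstant (χ : GK K → ℤˣ)) (x : ZMod 3) :
    IsOpen {g : GK K | chRep χ g x = x} :=
  hχ {u : ℤˣ | ((u : ℤˣ) : ℤ) • x = x}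

theorem cont_ch (d : K) (x : ZMod 3) : IsOpen {g : GK K | chRep (qch d) g x = x} :=
  cont_chRep (qch_locConst d) x

theorem cont_prod {M N : Type*} [AddCommGroup M] [AddCommGroup N] {ρ : GK K →* AddMonoid.End M}
    {σ : GK K →* AddMonoid.End N} (hρ : ∀ x : M, IsOpen {g : GK K | ρ g x = x})
    (hσ : ∀ x : N, IsOpen {g : GK K | σ g x = x}) (x : M × N) :
    IsOpen {g : GK K | prodRep ρ σ g x = x} := by
  have : {g : GK K | prodRep ρ σ g x = x} =
      {g : GK K | ρ g x.1 = x.1} ∩ {g : GK K | σ g x.2 = x.2} := by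
    ext g
    rw [Set.mem_setOf_eq, prodRep_apply, Prod.ext_iff]
    rfl
  rw [this]
  exact (hρ _).inter (hσ _)

theorem prod_isos {M N : Type*} [AddCommGroup M] [AddCommGroup N]
    (ρ : GK K →* AddMonoid.End M) (σ : GK K →* AddMonoid.End N) :
    (∃ hN1 : ∀ g, ∀ x ∈ (AddMonoidHom.snd M N).ker, prodRep ρ σ g x ∈
        (AddMonoidHom.snd M N).ker,
      Iso (subRep (prodRep ρ σ) _ hN1) ρ ∧ Iso (quoRep (prodRep ρ σ) _ hN1) σ) ∧
    ∃ hN2 : ∀ g, ∀ x ∈ (AddMonoidHom.fst M N).ker, prodRep ρ σ g x ∈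
        (AddMonoidHom.fst M N).ker,
      Iso (subRep (prodRep ρ σ) _ hN2) σ := by
  have hN1 : ∀ g, ∀ x ∈ (AddMonoidHom.snd M N).ker, prodRep ρ σ g x ∈
      (AddMonoidHom.snd M N).ker := by
    intro g x hx
    change σ g x.2 = 0
    rw [show x.2 = 0 from hx, map_zero]
  have hN2 : ∀ g, ∀ x ∈ (AddMonoidHom.fst M N).ker, prodRep ρ σ g x ∈
      (AddMonoidHom.fst M N).ker := by
    intro g x hx
    change ρ g x.1 = 0
    rw [show x.1 = 0 from hx, map_zero]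
  refine ⟨⟨hN1, ?_, ?_⟩, ⟨hN2, ?_⟩⟩
  · refine ⟨{ toFun := fun x => x.1.1
              invFun := fun m => ⟨(m, 0), rfl⟩
              left_inv := fun x => Subtype.ext (Prod.ext rfl (show (0 : N) = x.1.2 from
                (show x.1.2 = 0 from x.2).symm))
              right_inv := fun m => rfl
              map_add' := fun x y => rfl }, fun g m => rfl⟩
  · refine ⟨QuotientAddGroup.quotientKerEquivOfSurjective (AddMonoidHom.snd M N)
      (fun n => ⟨(0, n), rfl⟩), fun g m => ?_⟩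
    induction m using QuotientAddGroup.induction_on with
    | H x => rfl
  · refine ⟨{ toFun := fun x => x.1.2
              invFun := fun m => ⟨(0, m), rfl⟩
              left_inv := fun x => Subtype.ext (Prod.ext (show (0 : M) = x.1.1 from
                (show x.1.1 = 0 from x.2).symm) rfl)
              right_inv := fun m => rfl
              map_add' := fun x y => rfl }, fun g m => rfl⟩

theorem a3_prod {M N : Type*} [AddCommGroup M] [AddCommGroup N] [Finite M] [Finite N]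
    {ρ : GK K →* AddMonoid.End M}
    {σ : GK K →* AddMonoid.End N} (hρ : ∀ x : M, IsOpen {g : GK K | ρ g x = x})
    (hσ : ∀ x : N, IsOpen {g : GK K | σ g x = x}) (h3 : ∀ x : M, 3 • x = 0)
    (h3' : ∀ x : N, 3 • x = 0) : A3 (prodRep ρ σ) ↔ A3 ρ ∧ A3 σ := by
  have hc := cont_prod hρ hσ
  obtain ⟨⟨hN1, i1, i3⟩, ⟨hN2, i2⟩⟩ := prod_isos ρ σ
  constructor
  · intro h
    exact ⟨(a3_iso i1).1 (Pool.Agent.Helper99.FS.sel_sub _ hc _ hN1 _ h),
      (a3_iso i2).1 (Pool.Agent.Helper99.FS.sel_sub _ hc _ hN2 _ h)⟩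
  · rintro ⟨h1, h2⟩
    exact a3_ext _ hc (fun x => Prod.ext (h3 _) (h3' _)) _ hN1 ((a3_iso i1).2 h1)
      ((a3_iso i3).2 h2)

/-- Going down along a finite extension. -/
theorem sel_down {M : Type*} [AddCommGroup M] [Finite M] (ρ : GK K →* AddMonoid.End M)
    (hρ : ∀ x : M, IsOpen {g : GK K | ρ g x = x}) (L H : Subgroup (GK K))
    (hL : IsOpen (L : Set (GK K))) (h : FinSel ρ (L ⊓ H)) : FinSel ρ H := by
  have : Algebra.IsAlgebraic ℚ (Kb K) := Algebra.IsAlgebraic.trans ℚ K (Kb K)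
  have : IsGalois ℚ (Kb K) := Pool.Agent.Helper3.FS.isGalois_Q
  rw [Pool.Agent.Helper3.FS.fin_iff ρ hρ] at h ⊢
  refine Pool.Agent.Helper99.FS.a6 _ (Subgroup.map_mono inf_le_right) ⟨L.map (toQ K),
    Pool.Agent.Helper3.FS.isOpen_map L hL, ?_⟩ h
  rintro _ ⟨⟨g, hg, rfl⟩, ⟨g', hg', e⟩⟩
  have e' := toQ_inj K e
  subst e'
  exact ⟨g', ⟨hg, hg'⟩, rfl⟩

/-- A continuous quadratic (or trivial) character is `qch d` for some `d`. -/
theorem exists_qch {χ : GK K →* ℤˣ} (hχ : IsLocallyConstant (χ : GK K → ℤˣ)) :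
    ∃ d : K, d ≠ 0 ∧ χ = qch d := by
  have hc2 : IsLocallyConstant ((χ * qch (-3 : K) : GK K →* ℤˣ) : GK K → ℤˣ) :=
    hχ.mul (qch_locConst (-3 : K))
  obtain ⟨⟨hN1, i1, i3⟩, -⟩ := prod_isos (chRep χ) (chRep (χ * qch (-3 : K)))
  obtain ⟨d, δ, hd, -, h, -⟩ := Pool.Agent.Helper69.RY.kummer_of
    Pool.Agent.Helper99.IS.hilbert90 (prodRep (chRep χ) (chRep (χ * qch (-3 : K)))) (by decide)
    (cont_prod (cont_chRep hχ) (cont_chRep hc2)) _ hN1 χ i1 i3
  exact ⟨d, hd, h⟩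

end Pool.Agent.Helper58.P3
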