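import Pool.Agent.Helper58.P3.Line
import Pool.Agent.Helper58.FS.Br

/-!
# From a subgroup of the Galois group over `K` to the Galois group over `ℚ`
-/

open scoped NumberField Pointwise

namespace Pool.Agent.Helper58.P3

open Pool.Agent.Helper58.IQ Pool.Agent.Helper58.FS

open Classical in
/-- The action of `H`, extended by the identity to `Gal(Kb/ℚ)`. -/
noncomputable def extH {K : Type*} [Field K] [CharZero K] {M : Type*} [AddCommGroup M]
    (H : Subgroup (GK K)) (ρ : H →* AddMonoid.End M) (g : GQ (Kb K)) : M →+ M :=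
  if h : ∃ g' : H, toQ K g' = g then ρ h.choose else AddMonoidHom.id M

theorem extH_toQ {K : Type*} [Field K] [CharZero K] {M : Type*} [AddCommGroup M]
    (H : Subgroup (GK K)) (ρ : H →* AddMonoid.End M) (g : H) :
    extH H ρ (toQ K g) = ρ g := by
  have h : ∃ g' : H, toQ K g' = toQ K g := ⟨g, rfl⟩
  unfold extH
  rw [dif_pos h]
  congr 1
  exact Subtype.ext (toQ_inj K h.choose_spec)

/-- The odd functions on an abelian group, with values in `ZMod 3`. -/
def Odd (V : Type*) [AddCommGroup V] : AddSubgroup (V → ZMod 3) where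
  carrier := {f | ∀ v, f (-v) = -f v}
  zero_mem' := fun v => by simp
  add_mem' := by
    intro f g hf hg v
    rw [Pi.add_apply, Pi.add_apply, hf v, hg v]
    ring
  neg_mem' := by
    intro f hf v
    rw [Pi.neg_apply, Pi.neg_apply, hf v]

/-- The action on functions. -/
def funRep {G : Type*} [Group G] {V : Type*} [AddCommGroup V] (ρ : G →* AddMonoid.End V) :
    G →* AddMonoid.End (V → ZMod 3) where
  toFun g :=
    { toFun := fun f v => f (ρ g⁻¹ v)
      map_zero' := rfl
      map_add' := fun _ _ => rfl }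
  map_one' := by
    refine AddMonoidHom.ext fun f => ?_
    funext v
    change f (ρ 1⁻¹ v) = f v
    rw [inv_one, map_one]
    rfl
  map_mul' g h := by
    refine AddMonoidHom.ext fun f => ?_
    funext v
    change f (ρ (g * h)⁻¹ v) = f (ρ h⁻¹ (ρ g⁻¹ v))
    rw [mul_inv_rev, map_mul]
    rfl

theorem odd_stab {G : Type*} [Group G] {V : Type*} [AddCommGroup V] (ρ : G →* AddMonoid.End V)
    (g : G) (f : V → ZMod 3) (hf : f ∈ Odd V) : funRep ρ g f ∈ Odd V := by
  intro v
  change f (ρ g⁻¹ (-v)) = -f (ρ g⁻¹ v)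
  rw [map_neg]
  exact hf _

/-- The module of odd functions. -/
def oddRep {G : Type*} [Group G] {V : Type*} [AddCommGroup V] (ρ : G →* AddMonoid.End V) :
    G →* AddMonoid.End (Odd V) :=
  subRep (funRep ρ) (Odd V) (odd_stab ρ)

/-- The additive functions. -/
def Lin (V : Type*) [AddCommGroup V] : AddSubgroup (Odd V) where
  carrier := {f | ∀ v w, f.1 (v + w) = f.1 v + f.1 w}
  zero_mem' := fun v w => by simp
  add_mem' := by
    intro f g hf hg v w
    simp only [AddSubgroup.coe_add, Pi.add_apply, hf v w, hg v w]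
    ring
  neg_mem' := by
    intro f hf v w
    simp only [AddSubgroup.coe_neg, Pi.neg_apply, hf v w]
    ring

theorem lin_stab {G : Type*} [Group G] {V : Type*} [AddCommGroup V] (ρ : G →* AddMonoid.End V)
    (g : G) (f : Odd V) (hf : f ∈ Lin V) : oddRep ρ g f ∈ Lin V := by
  intro v w
  change f.1 (ρ g⁻¹ (v + w)) = f.1 (ρ g⁻¹ v) + f.1 (ρ g⁻¹ w)
  rw [map_add]
  exact hf _ _

end Pool.Agent.Helper58.P3
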