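import Pool.Agent.Helper58.P3.Cubic

/-!
# Isogeny invariance from the splitting statement
-/

open scoped NumberField
open WeierstrassCurve

universe u

namespace Pool.Agent.Helper58.P3

open Pool.Agent.Helper58.IQ Pool.Agent.Helper58.FS Pool.Agent.Helper21.EC

variable {K : Type u} [Field K] [NumberField K]

/-- Isogeny invariance over `K`. -/
def IsogInv3 (K : Type u) [Field K] : Prop :=
  ∀ W W' : WeierstrassCurve K, W.Δ ≠ 0 → W'.Δ ≠ 0 → Isogenous W W' →
    (A3 (torRep W) ↔ A3 (torRep W'))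

/-- The split form over `K`. -/
def SplitInv3 (K : Type u) [Field K] : Prop :=
  ∀ (W : WeierstrassCurve K) (T : AddSubgroup (Pts W)) (hs : Stab W T), W.Δ ≠ 0 →
    T ≤ tor3 W → Nat.card T = 3 →
    (A3 (torRep W) ↔ A3 (lineRep W T hs) ∧ A3 (quotRep W T hs))

/-- Isogeny invariance follows if Conjecture A for `W[3]` is equivalent to Conjecture A for the
subgroup and the quotient. -/
theorem inv_of_split (h : SplitInv3 K) : IsogInv3 K := by
  intro W W' hW hW' ⟨φ, hφ⟩
  rcases line_or_simple W hW with ⟨T, hs, hT, hc⟩ | hsimple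
  · obtain ⟨d, a, b, hG, -, hl, hq, t, w, k, hf, hTt⟩ := formW W hW T hs hT hc
    have hv : ∀ P : Pts W, P ∈ T ↔ ∃ m : ℤ, P = m • (t : Pts W) := by
      intro P
      constructor
      · intro hP
        obtain ⟨m, hm⟩ := (hTt ⟨P, hT hP⟩).1 hP
        exact ⟨m, congrArg Subtype.val hm⟩
      · rintro ⟨m, rfl⟩
        exact (hTt (m • t)).2 ⟨m, rfl⟩
    have hgt : ∀ g, ptsRep W g (t : Pts W) = ((qch d g : ℤˣ) : ℤ) • (t : Pts W) :=
      fun g => congrArg Subtype.val (hf.gt g)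
    have hgw : ∀ g, ptsRep W g (w : Pts W) =
        ((qch (-3 * d) g : ℤˣ) : ℤ) • ((w : Pts W) - k g • (t : Pts W)) :=
      fun g => congrArg Subtype.val (hf.gw g)
    obtain ⟨Q, hQ0, hQ3, hQ⟩ := Pool.Agent.Helper69.RY.devissage (ptsRep W) (ptsRep W') φ
      hφ.surj hφ.fin hφ.equivariant T (fun P hP => hT hP)
      (fun g => ((qch d g : ℤˣ) : ℤ)) (fun g => ((qch (-3 * d) g : ℤˣ) : ℤ))
      (by
        intro g P hP
        obtain ⟨m, rfl⟩ := (hv P).1 hP
        rw [map_zsmul, hgt, smul_comm])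
      (by
        intro g P hP
        obtain ⟨m, n, hmn⟩ := hf.span ⟨P, hP⟩
        have hmn' : P = m • (t : Pts W) + n • (w : Pts W) := congrArg Subtype.val hmn
        rw [hv]
        refine ⟨m * ((qch d g : ℤˣ) : ℤ) - n * ((qch (-3 * d) g : ℤˣ) : ℤ) * k g -
          ((qch (-3 * d) g : ℤˣ) : ℤ) * m, ?_⟩
        rw [hmn', map_add, map_zsmul, map_zsmul, hgt, hgw]
        exact comb _ _ _ _ _ _ _)
      (exists_tor3 W' hW')
    have h3 : (-3 : K) ≠ 0 := by norm_num
    -- the characters on the second curve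
    have key : ∃ (T' : AddSubgroup (Pts W')) (hs' : Stab W' T'), T' ≤ tor3 W' ∧
        Nat.card T' = 3 ∧
        ((Iso (lineRep W' T' hs') (chRep (qch d)) ∧
          Iso (quotRep W' T' hs') (chRep (qch (-3 * d)))) ∨
        (Iso (lineRep W' T' hs') (chRep (qch (-3 * d))) ∧
          Iso (quotRep W' T' hs') (chRep (qch d)))) := by
      rcases hQ with hQ | hQ
      · obtain ⟨T', hs', d', hd', hle', hc', he', hl', hq'⟩ :=
          form_of_point W' hW' Q hQ0 hQ3 (qch d) hQ
        refine ⟨T', hs', hle', hc', Or.inl ⟨?_, ?_⟩⟩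
        · rw [← he']
          exact hl'
        · rw [Pool.Agent.Helper21.EC.qch_mul h3 hG.1, ← he', ← Pool.Agent.Helper21.EC.qch_mul h3 hd']
          exact hq'
      · obtain ⟨T', hs', d', hd', hle', hc', he', hl', hq'⟩ :=
          form_of_point W' hW' Q hQ0 hQ3 (qch (-3 * d)) hQ
        refine ⟨T', hs', hle', hc', Or.inr ⟨?_, ?_⟩⟩
        · rw [← he']
          exact hl'
        · rw [Pool.Agent.Helper21.EC.qch_mul h3 hd', he', ← Pool.Agent.Helper21.EC.qch_mul h3 (mul_ne_zero h3 hG.1),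
            show -3 * (-3 * d) = d * 3 ^ 2 by ring, qch_sq hG.1 (by norm_num)] at hq'
          exact hq'
    obtain ⟨T', hs', hle', hc', hiso⟩ := key
    rw [h W T hs hW hT hc, h W' T' hs' hW' hle' hc',
      a3_iso hl, a3_iso hq]
    rcases hiso with ⟨h1, h2⟩ | ⟨h1, h2⟩
    · rw [a3_iso h1, a3_iso h2]
    · rw [a3_iso h1, a3_iso h2, and_comm]
  · apply a3_iso
    exact Pool.Agent.Helper69.RY.iso_of_simple (ptsRep W) (ptsRep W') φ hφ.surj hφ.fin
      hφ.equivariant hsimple (exists_tor3 W' hW') (stab_tor3 W) (stab_tor3 W')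

/-- Isogeny invariance over `K` and pure cubic extensions. -/
theorem isogInv3_iff : IsogInv3 K ↔
    ∀ χ : GK K →* ℤˣ, IsLocallyConstant (χ : GK K → ℤˣ) → CubicAt K χ := by
  constructor
  · intro h χ hχ
    have h1 : IsogAt3 K χ := fun W W' hW hW' _ _ hi => h W W' hW hW' hi
    exact cubic_of_split hχ (split_at h1)
  · intro h
    apply inv_of_split
    intro W T hs hW hT hc
    obtain ⟨d, a, b, hG, -, h2, h3, -⟩ := formW W hW T hs hT hc
    have h4 : SplitAt3 K (qch d) := split_of_cubic (h (qch d) (qch_locConst d))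
    rw [h4 W hW ⟨T, hs, hT, Or.inl h2⟩, a3_iso h2, a3_iso h3, qch_om hG.1]

theorem isogInv3_iff' : IsogInv3 K ↔
    ∀ χ : GK K →* ℤˣ, IsLocallyConstant (χ : GK K → ℤˣ) → CubicRefl K χ := by
  rw [isogInv3_iff]
  exact forall₂_congr fun χ hχ => (tfae_at3 hχ).out 4 5

end Pool.Agent.Helper58.P3
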