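import Pool.Agent.Helper58.P3.CSStmt
import Pool.Agent.Helper58.P3.Inv
import Pool.Agent.Helper58.FS.Link

/-!
# Isogeny invariance of Conjecture A of Coates and Sujatha for `p = 3`
-/

open scoped NumberField

universe u

namespace Pool.Agent.Helper58.P3

open Pool.Agent.Helper58.IQ Pool.Agent.Helper58.FS

variable {K : Type u} [Field K] [NumberField K]

theorem link3 (W : WeierstrassCurve K) (hW : W.Δ ≠ 0) : ConjCS 3 W ↔ A3 (torRep W) :=
  link (p := 3) (by norm_num) W hW (finite_tor3 W hW)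

theorem isogCSAt_iff (χ : GK K →* ℤˣ) : IsogCSAt K χ ↔ IsogAt3 K χ := by
  constructor
  · intro h W W' hW hW' h1 h2 h3
    rw [← link3 W hW, ← link3 W' hW']
    exact h W W' hW hW' h1 h2 h3
  · intro h W W' hW hW' h1 h2 h3
    rw [link3 W hW, link3 W' hW']
    exact h W W' hW hW' h1 h2 h3

theorem splitCSAt_iff (χ : GK K →* ℤˣ) : SplitCSAt K χ ↔ SplitAt3 K χ := by
  constructor
  · intro h W hW h1
    rw [← link3 W hW]
    exact h W hW h1
  · intro h W hW h1
    rw [link3 W hW]
    exact h W hW h1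

theorem constCSAt_iff (χ : GK K →* ℤˣ) : ConstCSAt K χ ↔ ConstAt3 K χ := by
  constructor
  · intro h W W' hW hW' h1 h2
    rw [← link3 W hW, ← link3 W' hW']
    exact h W W' hW hW' h1 h2
  · intro h W W' hW hW' h1 h2
    rw [link3 W hW, link3 W' hW']
    exact h W W' hW hW' h1 h2

theorem isogCS_iff : IsogCS K ↔ IsogInv3 K := by
  constructor
  · intro h W W' hW hW' h1
    rw [← link3 W hW, ← link3 W' hW']
    exact h W W' hW hW' h1
  · intro h W W' hW hW' h1
    rw [link3 W hW, link3 W' hW']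
    exact h W W' hW hW' h1

theorem final : (∀ χ : GK K →* ℤˣ, IsLocallyConstant (χ : GK K → ℤˣ) →
      List.TFAE [IsogCSAt K χ, SplitCSAt K χ, ConstCSAt K χ, ExtSel K χ, CubicAt K χ,
        CubicRefl K χ]) ∧
    (IsogCS K ↔ ∀ χ : GK K →* ℤˣ, IsLocallyConstant (χ : GK K → ℤˣ) → CubicRefl K χ) := by
  constructor
  · intro χ hχ
    rw [isogCSAt_iff, splitCSAt_iff, constCSAt_iff]
    exact tfae_at3 hχ
  · rw [isogCS_iff]
    exact isogInv3_iff'

end Pool.Agent.Helper58.P3
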