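import Pool.Agent.Helper58.P3.St3
import Pool.Agent.Helper58.P3.Final

/-!
# The two forms of the definitions
-/

open scoped NumberField

universe u

namespace Pool.Agent.Helper58.CS

open Pool.Agent.Helper58.IQ

theorem finSel_iff {K : Type*} [Field K] {M : Type*} [AddCommGroup M]
    (ρ : GK K →* AddMonoid.End M) (H : Subgroup (GK K)) :
    FinSel ρ H ↔ Pool.Agent.Helper58.FS.FinSel ρ H := Iff.rfl

theorem conjCS_iff {K : Type*} [Field K] (p : ℕ) [Fact p.Prime] (W : WeierstrassCurve K) :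
    ConjCS p W ↔ Pool.Agent.Helper58.FS.ConjCS p W := Iff.rfl

variable (K : Type u) [Field K] [NumberField K]

theorem final : (∀ χ : GK K →* ℤˣ, IsLocallyConstant (χ : GK K → ℤˣ) →
      List.TFAE [IsogCSAt K χ, SplitCSAt K χ, ConstCSAt K χ, ExtSel K χ, CubicAt K χ,
        CubicRefl K χ]) ∧
    (IsogCS K ↔ ∀ χ : GK K →* ℤˣ, IsLocallyConstant (χ : GK K → ℤˣ) → CubicRefl K χ) :=
  Pool.Agent.Helper58.P3.final

end Pool.Agent.Helper58.CS
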