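import Pool.Agent.Helper58.IQ.Stmt
import Pool.Agent.Helper58.IQ.S2c

/-!
# The form of `W[3]` for a curve with a stable subgroup of order 3
-/

open scoped NumberField
open WeierstrassCurve

namespace Pool.Agent.Helper58.P3

open Pool.Agent.Helper58.IQ

variable {K : Type*} [Field K] [CharZero K]

theorem formD (W : WeierstrassCurve K) (T : AddSubgroup (Pts W))
    (hs : Stab W T) (hT : T ≤ tor3 W) {d a b : K} (hG : Good d a b) (e : Pts W ≃+ Pts (E d a b))
    (he : ∀ g P, e (ptsRep W g P) = ptsRep (E d a b) g (e P))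
    (hTe : ∀ P, P ∈ T ↔ (e P = 0 ∨ ∃ y h, e P = Affine.Point.some 0 y h)) :
    Iso (torRep W) (torRep (E d a b)) ∧ Iso (lineRep W T hs) (chRep (qch d)) := by
  obtain ⟨θ, hθ⟩ := IsAlgClosed.exists_pow_nat_eq (algebraMap K (Kb K) (del d a b))
    (n := 3) (by norm_num)
  obtain ⟨t, w, hf, hl⟩ := form_E hG hθ
  -- the equivalence of the 3-torsion subgroups
  have hmem : ∀ P : Pts W, P ∈ tor3 W ↔ e P ∈ tor3 (E d a b) := by
    intro P
    rw [mem_tor3, mem_tor3, ← map_nsmul]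
    constructor
    · intro h
      rw [h, map_zero]
    · intro h
      exact e.injective (by rw [h, map_zero])
  let e₃ : tor3 W ≃+ tor3 (E d a b) :=
    { toFun := fun P => ⟨e P, (hmem P).1 P.2⟩
      invFun := fun Q => ⟨e.symm Q, (hmem _).2 (by rw [AddEquiv.apply_symm_apply]; exact Q.2)⟩
      left_inv := fun P => Subtype.ext (e.symm_apply_apply P)
      right_inv := fun Q => Subtype.ext (e.apply_symm_apply Q)
      map_add' := fun P Q => Subtype.ext (map_add e (P : Pts W) Q) }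
  have he₃ : ∀ g P, e₃ (torRep W g P) = torRep (E d a b) g (e₃ P) :=
    fun g P => Subtype.ext (he g P)
  have hiso : Iso (torRep W) (torRep (E d a b)) := ⟨e₃, he₃⟩
  have he₃' : ∀ g Q, e₃.symm (torRep (E d a b) g Q) = torRep W g (e₃.symm Q) := by
    intro g Q
    rw [AddEquiv.symm_apply_eq, he₃, AddEquiv.apply_symm_apply]
  have hf' := hf.map e₃.symm he₃'
  have hline : ∀ P : tor3 W, (P : Pts W) ∈ T ↔ ∃ m : ℤ, P = m • e₃.symm t := by
    intro P
    rw [hTe]
    have h1 := hl (e₃ P)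
    change (∃ m : ℤ, e₃ P = m • t) ↔ (e (P : Pts W) = 0 ∨ ∃ y hy, e (P : Pts W) = _) at h1
    rw [← h1]
    constructor
    · rintro ⟨m, hm⟩
      refine ⟨m, ?_⟩
      rw [← map_zsmul, ← hm, AddEquiv.symm_apply_apply]
    · rintro ⟨m, hm⟩
      refine ⟨m, ?_⟩
      rw [hm, map_zsmul, AddEquiv.apply_symm_apply]
  refine ⟨hiso, ?_⟩
  have ht : ((e₃.symm t : tor3 W) : Pts W) ∈ T := (hline _).2 ⟨1, (one_zsmul _).symm⟩
  let v : tor3 W → Pts W := fun P => (P : Pts W)
  let v' : T → Pts W := fun P => (P : Pts W)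
  refine cyc_iso (a := (⟨_, ht⟩ : T)) ?_ ?_ ?_ ?_
  · rintro ⟨P, hP⟩
    obtain ⟨m, hm⟩ := (hline ⟨P, hT hP⟩).1 hP
    have h1 := congrArg v hm
    exact ⟨m, Subtype.ext h1⟩
  · have h1 := congrArg v hf'.t3
    exact Subtype.ext h1
  · intro h0
    apply hf'.t_ne
    have h1 := congrArg v' h0
    exact Subtype.ext h1
  · intro g
    have h1 := congrArg v (hf'.gt g)
    exact Subtype.ext h1

end Pool.Agent.Helper58.P3
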