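import Pool.Agent.Helper58.P3.Quad
import Pool.Agent.Helper58.P3.FamD
import Pool.Agent.Helper58.P3.FormD
import Pool.Agent.Helper58.P3.Inv
import Pool.Agent.Helper58.FS.Tplus

/-!
# The cube roots of the discriminant
-/

set_option autoImplicit false

open scoped NumberField Pointwise
open WeierstrassCurve

universe u

namespace Pool.Agent.Helper58.P3

open Pool.Agent.Helper58.IQ Pool.Agent.Helper58.FS Pool.Agent.Helper21.EC

section

variable {K : Type u} [Field K]

/-- For every cube root `θ` of `x`: the fine Selmer group of the module `M` over the cyclotomic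
`ℤ_3`-extension of `K(θ)` is finite. -/
def CubeFin {M : Type*} [AddCommGroup M] (ρ : GK K →* AddMonoid.End M) (x : K) : Prop :=
  ∀ θ : Kb K, θ ^ 3 = algebraMap K (Kb K) x →
    FinSel ρ ((IntermediateField.adjoin K {θ}).fixingSubgroup ⊓ Gcyc K 3)

theorem mem_fix (θ : Kb K) (g : GK K) :
    g ∈ (IntermediateField.adjoin K {θ}).fixingSubgroup ↔ g θ = θ := by
  constructor
  · intro h
    rw [IntermediateField.mem_fixingSubgroup_iff] at h
    exact h θ (IntermediateField.mem_adjoin_simple_self K θ)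
  · intro hg
    rw [IntermediateField.mem_fixingSubgroup_iff]
    intro x hx
    induction hx using IntermediateField.adjoin_induction with
    | mem x hx =>
      rw [Set.mem_singleton_iff.1 hx]
      exact hg
    | algebraMap x => exact g.commutes x
    | add x y _ _ hx hy => rw [map_add, hx, hy]
    | inv x _ hx => rw [map_inv₀, hx]
    | mul x y _ _ hx hy => rw [map_mul, hx, hy]

theorem fix_smul (θ : Kb K) {c : K} (hc : c ≠ 0) :
    (IntermediateField.adjoin K {algebraMap K (Kb K) c * θ}).fixingSubgroup =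
      (IntermediateField.adjoin K {θ}).fixingSubgroup := by
  ext g
  rw [mem_fix, mem_fix, map_mul, AlgEquiv.commutes]
  have h0 : algebraMap K (Kb K) c ≠ 0 := by
    rw [Ne, map_eq_zero]
    exact hc
  exact ⟨fun h => mul_left_cancel₀ h0 h, fun h => by rw [h]⟩

variable {M N : Type*} [AddCommGroup M] [AddCommGroup N] {ρ : GK K →* AddMonoid.End M}
  {σ : GK K →* AddMonoid.End N}

theorem cubeFin_mul {x c : K} (hc : c ≠ 0) : CubeFin ρ (c ^ 3 * x) ↔ CubeFin ρ x := by
  have h0 : algebraMap K (Kb K) c ≠ 0 := by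
    rw [Ne, map_eq_zero]
    exact hc
  constructor
  · intro h θ hθ
    have h1 := h (algebraMap K (Kb K) c * θ) (by rw [mul_pow, hθ, map_mul, map_pow])
    rwa [fix_smul θ hc] at h1
  · intro h θ hθ
    have h1 : θ = algebraMap K (Kb K) c * ((algebraMap K (Kb K) c)⁻¹ * θ) := by
      rw [mul_inv_cancel_left₀ h0]
    have h2 := h ((algebraMap K (Kb K) c)⁻¹ * θ) (by
      rw [mul_pow, hθ, map_mul, map_pow, inv_pow, inv_mul_cancel_left₀ (pow_ne_zero 3 h0)])
    rw [h1, fix_smul _ hc]
    exact h2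

theorem cubeFin_iso (h : Iso ρ σ) (x : K) : CubeFin ρ x ↔ CubeFin σ x :=
  forall₂_congr fun _ _ => Pool.Agent.Helper99.FS.sel_iso h _

end

variable {K : Type u} [Field K] [NumberField K]

/-- Going up along a Galois extension of 3-power degree. -/
theorem sel_up {M : Type*} [AddCommGroup M] [Finite M] (ρ : GK K →* AddMonoid.End M)
    (hρ : ∀ x : M, IsOpen {g : GK K | ρ g x = x}) (h3 : ∀ x : M, 3 • x = 0)
    (L : Subgroup (GK K)) (hL : IsOpen (L : Set (GK K))) (hn : L.Normal)
    (hi : L.index ∣ 3) (h : A3 ρ) : FinSel ρ (L ⊓ Gcyc K 3) := by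
  have := alg_Q K
  have := compact_GQ K
  have hle : L ⊓ Gcyc K 3 ≤ Gcyc K 3 := inf_le_right
  change FinSel ρ (Gcyc K 3) at h
  rw [Pool.Agent.Helper3.FS.fin_iff ρ hρ] at h ⊢
  have htop : (toQ K).range = (⊤ : Subgroup (GK K)).map (toQ K) := MonoidHom.range_eq_map _
  have hgm := Pool.Agent.Helper3.FS.gcyc_map (K := K) 3
  refine Pool.Agent.Helper21.FS.pchain (Prm (Kb K))
    (Pool.Agent.Helper98.FS.arith (Ω := Kb K) 3 (by norm_num))
    (H := (Gcyc K 3).map (toQ K)) (by rw [hgm]; exact inf_le_right)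
    ⟨(toQ K).range, by rw [htop]; exact Pool.Agent.Helper3.FS.isOpen_map ⊤ isOpen_univ,
      by rw [hgm]⟩
    (Pool.Agent.Helper3.FS.act_ext ρ hρ _) h3 (Subgroup.map_mono hle) ?_ ?_ ?_ h
  · rintro _ ⟨g, hg, rfl⟩ _ ⟨x, hx, rfl⟩
    refine ⟨g * x * g⁻¹, ⟨hn.conj_mem x hx.1 g, ?_⟩, by simp⟩
    exact (Gcyc K 3).mul_mem ((Gcyc K 3).mul_mem hg hx.2) ((Gcyc K 3).inv_mem hg)
  · have h1 : (L ⊓ Gcyc K 3).relIndex (Gcyc K 3) ∣ 3 := by
      rw [Subgroup.inf_relIndex_right]
      exact (Subgroup.relIndex_dvd_index_of_normal L (Gcyc K 3)).trans hi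
    rw [Subgroup.relIndex_map_map_of_injective _ _ (toQ_inj K)]
    have h2 : (L ⊓ Gcyc K 3).relIndex (Gcyc K 3) ∣ 3 ^ 1 := by rwa [pow_one]
    obtain ⟨j, -, hj⟩ := (Nat.dvd_prime_pow Nat.prime_three).1 h2
    exact ⟨j, hj⟩
  · refine ⟨L.map (toQ K), Pool.Agent.Helper3.FS.isOpen_map L hL, ?_⟩
    rintro _ ⟨⟨g, hg, rfl⟩, ⟨g', hg', e⟩⟩
    have e' := toQ_inj K e
    subst e'
    exact ⟨g', ⟨hg, hg'⟩, rfl⟩

theorem om_locConst : IsLocallyConstant (om K : GK K → ℤˣ) := qch_locConst (-3 : K)

/-- The case `x = 1`. -/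
theorem cubeFin_one {χ : GK K →* ℤˣ} (hχ : IsLocallyConstant (χ : GK K → ℤˣ)) :
    CubeFin (chRep χ) (1 : K) ↔ A3 (chRep χ) ∧ A3 (chRep (χ * om K)) := by
  have hz : ∀ g, g ∈ (IntermediateField.adjoin K {zet K}).fixingSubgroup ↔ om K g = 1 := by
    intro g
    rw [mem_fix, Pool.Agent.Helper27.FS.g_zet]
    change _ ↔ qch (-3 : K) g = 1
    rcases Int.units_eq_one_or (qch (-3 : K) g) with h | h
    · rw [h]
      have h2 : ((((1 : ℤˣ) : ℤ) : ZMod 3)).val = 1 := by decide
      rw [h2, pow_one]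
      exact ⟨fun _ => rfl, fun _ => rfl⟩
    · rw [h]
      have h2 : ((((-1 : ℤˣ) : ℤ) : ZMod 3)).val = 2 := by decide
      rw [h2]
      constructor
      · intro h3
        exfalso
        apply Pool.Agent.Helper27.FS.zet_ne_one (K := K)
        have h4 : zet K * (zet K - 1) = 0 := by linear_combination h3
        rcases mul_eq_zero.1 h4 with h5 | h5
        · exfalso
          have h6 := Pool.Agent.Helper27.FS.zet3 (K := K)
          rw [h5] at h6
          norm_num at h6
        · exact sub_eq_zero.1 h5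
      · intro h3
        exact absurd h3 (by decide)
  have hq := quad hχ om_locConst _ hz
  constructor
  · intro h
    exact hq.1 (h (zet K) (by rw [Pool.Agent.Helper27.FS.zet3, map_one]))
  · intro h θ hθ
    rw [map_one] at hθ
    by_cases h1 : θ = 1
    · subst h1
      have h2 : (IntermediateField.adjoin K {(1 : Kb K)}).fixingSubgroup ⊓ Gcyc K 3 =
          Gcyc K 3 := by
        apply inf_eq_right.2
        intro g _
        rw [mem_fix, map_one]
      rw [h2]
      exact h.1
    · have h2 : θ = zet K ∨ θ = zet K ^ 2 := by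
        have hz0 := zet_root (K := K)
        have h3 : (θ - 1) * ((θ - zet K) * (θ - zet K ^ 2)) = 0 := by
          linear_combination hθ + ((-θ ^ 2) + θ * (zet K) + 1 - zet K) * hz0
        rcases mul_eq_zero.1 h3 with h4 | h4
        · exact absurd (sub_eq_zero.1 h4) h1
        · rcases mul_eq_zero.1 h4 with h5 | h5
          · exact Or.inl (sub_eq_zero.1 h5)
          · exact Or.inr (sub_eq_zero.1 h5)
      have h5 : (IntermediateField.adjoin K {θ}).fixingSubgroup =
          (IntermediateField.adjoin K {zet K}).fixingSubgroup := by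
        ext g
        rw [mem_fix, mem_fix]
        rcases h2 with h2 | h2
        · rw [h2]
        · have h6 : zet K = θ ^ 2 := by
            rw [h2]
            have h7 := Pool.Agent.Helper27.FS.zet3 (K := K)
            linear_combination (-(zet K)) * h7
          constructor
          · intro h7
            rw [h6, map_pow, h7]
          · intro h7
            rw [h2, map_pow, h7]
      rw [h5]
      exact hq.2 h

theorem cubeFin_cube {χ : GK K →* ℤˣ} (hχ : IsLocallyConstant (χ : GK K → ℤˣ)) {c : K}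
    (hc : c ≠ 0) :
    CubeFin (chRep χ) (c ^ 3) ↔ A3 (chRep χ) ∧ A3 (chRep (χ * om K)) := by
  have h1 := cubeFin_mul (ρ := chRep χ) (x := (1 : K)) hc
  rw [mul_one] at h1
  rw [h1, cubeFin_one hχ]

/-- The index of the group of a pure cubic extension if the cube roots of 1 are in `K`. -/
theorem kummer_group {δ : K} (hδ : δ ≠ 0) (hω : om K = 1) {θ : Kb K}
    (hθ : θ ^ 3 = algebraMap K (Kb K) δ) :
    ((IntermediateField.adjoin K {θ}).fixingSubgroup).Normal ∧
      ((IntermediateField.adjoin K {θ}).fixingSubgroup).index ∣ 3 := by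
  have h0 : θ ≠ 0 := by
    rintro rfl
    apply hδ
    have h1 : algebraMap K (Kb K) δ = 0 := by rw [← hθ]; ring
    rwa [map_eq_zero] at h1
  have hq : ∀ g : GK K, qch (-3 : K) g = 1 := fun g => by
    have := congrArg (fun f : GK K →* ℤˣ => f g) hω
    exact this
  have hp : ∀ (g : GK K) (j : ZMod 3), Pool.Agent.Helper27.FS.pi0 θ g j =
      j + ((kk θ g : ℤ) : ZMod 3) := by
    intro g j
    unfold Pool.Agent.Helper27.FS.pi0
    rw [hq g]
    simp
  let f : GK K →* Multiplicative (ZMod 3) :=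
    { toFun := fun g => Multiplicative.ofAdd ((kk θ g : ℤ) : ZMod 3)
      map_one' := by
        have h1 := Pool.Agent.Helper27.FS.pi0_one hθ h0 0
        rw [hp, zero_add] at h1
        rw [h1]
        rfl
      map_mul' := fun g h => by
        have h1 := Pool.Agent.Helper27.FS.pi0_mul hθ h0 g h 0
        rw [hp, hp, hp, zero_add, zero_add] at h1
        rw [h1, ← ofAdd_add, add_comm] }
  have hf : (IntermediateField.adjoin K {θ}).fixingSubgroup = f.ker := by
    ext g
    rw [mem_fix, ← Pool.Agent.Helper27.FS.pi0_fix hθ h0, hp, zero_add, MonoidHom.mem_ker]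
    rfl
  rw [hf]
  refine ⟨inferInstance, ?_⟩
  have h1 : Nat.card f.range ∣ Nat.card (Multiplicative (ZMod 3)) :=
    Subgroup.card_subgroup_dvd_card _
  rw [Subgroup.index_ker]
  have h2 : Nat.card (Multiplicative (ZMod 3)) = 3 := by
    rw [Nat.card_congr Multiplicative.toAdd, Nat.card_zmod]
  rwa [h2] at h1

/-- The criterion for the curve with invariants `d`, `δ`. -/
theorem crit0 {d δ : K} (hd : d ≠ 0) (hδ : δ ≠ 0) :
    QQ d δ ↔ CubeFin (chRep (qch d)) δ := by
  by_cases hω : om K = 1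
  · have h1 : QQ d δ ↔ A3 (chRep (qch d)) := by
      constructor
      · exact a3_sub_of_QQ hd hδ
      · intro h
        apply QQ_of_both hd hδ h
        rw [qch_om hd, hω, mul_one]
        exact h
    rw [h1]
    constructor
    · intro h θ hθ
      obtain ⟨hn, hi⟩ := kummer_group hδ hω hθ
      exact sel_up _ (cont_ch d) (by decide) _ (isOpen_adjoin θ) hn hi h
    · intro h
      obtain ⟨θ, hθ⟩ := IsAlgClosed.exists_pow_nat_eq (algebraMap K (Kb K) δ) (n := 3)
        (by norm_num)
      exact sel_down _ (cont_ch d) _ _ (isOpen_adjoin θ) (h θ hθ)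
  · by_cases hc : ∃ c : K, c ^ 3 = δ
    · obtain ⟨c, rfl⟩ := hc
      have hc0 : c ≠ 0 := fun h0 => hδ (by rw [h0]; ring)
      have h1 : QQ d 1 ↔ QQ d (c ^ 3) := by
        have := QQ_sq hd (one_ne_zero : (1 : K) ≠ 0) (one_ne_zero : (1 : K) ≠ 0) hc0
        rwa [one_pow, mul_one, one_mul] at this
      rw [← h1, QQ_one hd, qch_om hd, cubeFin_cube (qch_locConst d) hc0]
    · push Not at hc
      constructor
      · intro h θ hθ
        exact (qq_cubic hd hc hω θ hθ).1 h
      · intro h
        obtain ⟨θ, hθ⟩ := IsAlgClosed.exists_pow_nat_eq (algebraMap K (Kb K) δ) (n := 3)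
          (by norm_num)
        exact (qq_cubic hd hc hω θ hθ).2 (h θ hθ)

theorem disc_del {d a b : K} (h : Good d a b) :
    (E d a b).Δ = (4 * b * d) ^ 3 * del d a b := by
  rw [disc_E]
  unfold del
  have hd := h.1
  field_simp
  ring

/-- Conjecture A for `W[3]` and the cube roots of the discriminant. -/
theorem crit (W : WeierstrassCurve K) (hW : W.Δ ≠ 0) (T : AddSubgroup (Pts W)) (hs : Stab W T)
    (hT : T ≤ tor3 W) (hc : Nat.card T = 3) :
    A3 (torRep W) ↔ CubeFin (lineRep W T hs) W.Δ := by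
  obtain ⟨d, a, b, hG, e, he, hTe, u, hu, hΔ⟩ := familyD W hW T hT hs hc
  obtain ⟨h1, h2⟩ := formD W T hs hT hG e he hTe
  have hb : 4 * b * d ≠ 0 := mul_ne_zero (mul_ne_zero (by norm_num) hG.2.1) hG.1
  rw [a3_iso h1, QQ_of_E hG (del_ne hG), crit0 hG.1 (del_ne hG), cubeFin_iso h2,
    ← cubeFin_mul hb, ← disc_del hG, hΔ, show u ^ 12 = (u ^ 4) ^ 3 by ring,
    cubeFin_mul (pow_ne_zero 4 hu)]

end Pool.Agent.Helper58.P3
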