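import Pool.Agent.Helper58.P3.StD
import Pool.Agent.Helper58.P3.Brg
import Pool.Agent.Helper58.P3.Crit

/-!
# Pairs of isogenous curves and the cube roots of their discriminants
-/

set_option autoImplicit false

open scoped NumberField
open WeierstrassCurve

universe u

namespace Pool.Agent.Helper58.CS

open Pool.Agent.Helper58.IQ Pool.Agent.Helper21.EC

section

variable {K : Type u} [Field K] [NumberField K]

theorem le_tor3 {W : WeierstrassCurve K} {T : AddSubgroup (Pts W)} (hc : Nat.card T = 3) :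
    T ≤ tor3 W := by
  intro P hP
  rw [mem_tor3]
  have h1 : Nat.card T • (⟨P, hP⟩ : T) = 0 := card_nsmul_eq_zero'
  rw [hc] at h1
  exact congrArg Subtype.val h1

theorem critCS (W : WeierstrassCurve K) (hW : W.Δ ≠ 0) (T : AddSubgroup (Pts W))
    (hs : Stab W T) (hc : Nat.card T = 3) : ConjCS 3 W ↔ DiscFin W T hs := by
  rw [conjCS_iff, Pool.Agent.Helper58.P3.link3 W hW,
    Pool.Agent.Helper58.P3.crit W hW T hs (le_tor3 hc) hc]
  rfl

theorem simple_case {W W' : WeierstrassCurve K} (hW : W.Δ ≠ 0) (hW' : W'.Δ ≠ 0)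
    (hI : Isogenous W W') (h : ∀ T : AddSubgroup (Pts W), Stab W T → Nat.card T ≠ 3) :
    ConjCS 3 W ↔ ConjCS 3 W' := by
  obtain ⟨φ, hφ⟩ := hI
  rcases line_or_simple W hW with ⟨T, hs, hT, hc⟩ | hsimple
  · exact absurd hc (h T hs)
  · rw [conjCS_iff, conjCS_iff, Pool.Agent.Helper58.P3.link3 W hW,
      Pool.Agent.Helper58.P3.link3 W' hW']
    apply Pool.Agent.Helper58.P3.a3_iso
    exact Pool.Agent.Helper69.RY.iso_of_simple (ptsRep W) (ptsRep W') φ hφ.surj hφ.fin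
      hφ.equivariant hsimple (exists_tor3 W' hW') (stab_tor3 W) (stab_tor3 W')

/-- The characters of an isogenous curve. -/
theorem key {W W' : WeierstrassCurve K} (hW : W.Δ ≠ 0) (hW' : W'.Δ ≠ 0)
    (hI : Isogenous W W') (T : AddSubgroup (Pts W)) (hs : Stab W T) (hc : Nat.card T = 3) :
    ∃ d : K, d ≠ 0 ∧ Iso (lineRep W T hs) (chRep (qch d)) ∧
      ∃ (T' : AddSubgroup (Pts W')) (hs' : Stab W' T'), T' ≤ tor3 W' ∧
        Nat.card T' = 3 ∧
        ((Iso (lineRep W' T' hs') (chRep (qch d)) ∧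
          Iso (quotRep W' T' hs') (chRep (qch (-3 * d)))) ∨
        (Iso (lineRep W' T' hs') (chRep (qch (-3 * d))) ∧
          Iso (quotRep W' T' hs') (chRep (qch d)))) := by
  obtain ⟨φ, hφ⟩ := hI
  have hT := le_tor3 hc
  obtain ⟨d, a, b, hG, -, hl, hq, t, w, k, hf, hTt⟩ := formW W hW T hs hT hc
  have hv : ∀ P : Pts W, P ∈ T ↔ ∃ m : ℤ, P = m • (t : Pts W) := by
    intro P
    constructor
    · intro hP
      obtain ⟨m, hm⟩ := (hTt ⟨P, hT hP⟩).1 hP
      exact ⟨m, congrArg Subtype.val hm⟩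
    · rintro ⟨m, rfl⟩
      exact (hTt (m • t)).2 ⟨m, rfl⟩
  have hgt : ∀ g, ptsRep W g (t : Pts W) = ((qch d g : ℤˣ) : ℤ) • (t : Pts W) :=
    fun g => congrArg Subtype.val (hf.gt g)
  have hgw : ∀ g, ptsRep W g (w : Pts W) =
      ((qch (-3 * d) g : ℤˣ) : ℤ) • ((w : Pts W) - k g • (t : Pts W)) :=
    fun g => congrArg Subtype.val (hf.gw g)
  obtain ⟨Q, hQ0, hQ3, hQ⟩ := Pool.Agent.Helper69.RY.devissage (ptsRep W) (ptsRep W') φ
    hφ.surj hφ.fin hφ.equivariant T (fun P hP => hT hP)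
    (fun g => ((qch d g : ℤˣ) : ℤ)) (fun g => ((qch (-3 * d) g : ℤˣ) : ℤ))
    (by
      intro g P hP
      obtain ⟨m, rfl⟩ := (hv P).1 hP
      rw [map_zsmul, hgt, smul_comm])
    (by
      intro g P hP
      obtain ⟨m, n, hmn⟩ := hf.span ⟨P, hP⟩
      have hmn' : P = m • (t : Pts W) + n • (w : Pts W) := congrArg Subtype.val hmn
      rw [hv]
      refine ⟨m * ((qch d g : ℤˣ) : ℤ) - n * ((qch (-3 * d) g : ℤˣ) : ℤ) * k g -
        ((qch (-3 * d) g : ℤˣ) : ℤ) * m, ?_⟩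
      rw [hmn', map_add, map_zsmul, map_zsmul, hgt, hgw]
      exact comb _ _ _ _ _ _ _)
    (exists_tor3 W' hW')
  have h3 : (-3 : K) ≠ 0 := by norm_num
  refine ⟨d, hG.1, hl, ?_⟩
  rcases hQ with hQ | hQ
  · obtain ⟨T', hs', d', hd', hle', hc', he', hl', hq'⟩ :=
      form_of_point W' hW' Q hQ0 hQ3 (qch d) hQ
    refine ⟨T', hs', hle', hc', Or.inl ⟨?_, ?_⟩⟩
    · rw [← he']
      exact hl'
    · rw [Pool.Agent.Helper21.EC.qch_mul h3 hG.1, ← he', ← Pool.Agent.Helper21.EC.qch_mul h3 hd']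
      exact hq'
  · obtain ⟨T', hs', d', hd', hle', hc', he', hl', hq'⟩ :=
      form_of_point W' hW' Q hQ0 hQ3 (qch (-3 * d)) hQ
    refine ⟨T', hs', hle', hc', Or.inr ⟨?_, ?_⟩⟩
    · rw [← he']
      exact hl'
    · rw [Pool.Agent.Helper21.EC.qch_mul h3 hd', he', ← Pool.Agent.Helper21.EC.qch_mul h3 (mul_ne_zero h3 hG.1),
        show -3 * (-3 * d) = d * 3 ^ 2 by ring, qch_sq hG.1 (by norm_num)] at hq'
      exact hq'

/-- Two stable subgroups of order 3. -/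
theorem jh {W : WeierstrassCurve K} (hW : W.Δ ≠ 0) {T₁ T₂ : AddSubgroup (Pts W)}
    (hs₁ : Stab W T₁) (hs₂ : Stab W T₂) (hc₁ : Nat.card T₁ = 3) (hc₂ : Nat.card T₂ = 3) :
    Iso (lineRep W T₂ hs₂) (lineRep W T₁ hs₁) ∨ Iso (lineRep W T₂ hs₂) (quotRep W T₁ hs₁) := by
  by_cases he : T₂ = T₁
  · subst he
    exact Or.inl ⟨AddEquiv.refl _, fun g m => rfl⟩
  · right
    have hT₂ := le_tor3 hc₂
    have : Fact (Nat.Prime 3) := ⟨Nat.prime_three⟩
    let f : T₂ →+ tor3 W ⧸ T₁.addSubgroupOf (tor3 W) :=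
      (QuotientAddGroup.mk' _).comp (AddSubgroup.inclusion hT₂)
    have hinj : Function.Injective f := by
      rw [injective_iff_map_eq_zero]
      intro P hP
      have h1 : (AddSubgroup.inclusion hT₂ P) ∈ T₁.addSubgroupOf (tor3 W) :=
        (QuotientAddGroup.eq_zero_iff _).1 hP
      have h2 : (P : Pts W) ∈ T₁ := h1
      by_contra h0
      apply he
      have h3 : ∀ Q : T₂, ∃ n : ℤ, n • P = Q := fun Q =>
        AddSubgroup.mem_zmultiples_iff.1 (mem_zmultiples_of_prime_card hc₂ h0)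
      have h4 : T₂ ≤ T₁ := by
        intro Q hQ
        obtain ⟨n, hn⟩ := h3 ⟨Q, hQ⟩
        have h5 : n • (P : Pts W) = Q := congrArg Subtype.val hn
        rw [← h5]
        exact AddSubgroup.zsmul_mem _ h2 n
      have hf₁ : Finite T₁ := Nat.finite_of_card_ne_zero (by rw [hc₁]; norm_num)
      exact AddSubgroup.eq_of_le_of_card_ge h4 (by rw [hc₁, hc₂])
    obtain ⟨d, a, b, -, -, -, hq, -⟩ := formW W hW T₁ hs₁ (le_tor3 hc₁) hc₁
    obtain ⟨eq, -⟩ := hq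
    have hcard : Nat.card (tor3 W ⧸ T₁.addSubgroupOf (tor3 W)) = 3 := by
      rw [Nat.card_congr eq.toEquiv, Nat.card_zmod]
    have hfin : Finite (tor3 W ⧸ T₁.addSubgroupOf (tor3 W)) :=
      Nat.finite_of_card_ne_zero (by rw [hcard]; norm_num)
    have hbij : Function.Bijective f :=
      (Nat.bijective_iff_injective_and_card f).2 ⟨hinj, by rw [hc₂, hcard]⟩
    exact ⟨AddEquiv.ofBijective f hbij, fun g m => rfl⟩

theorem chars {W W' : WeierstrassCurve K} (hW : W.Δ ≠ 0) (hW' : W'.Δ ≠ 0)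
    (hI : Isogenous W W') {T : AddSubgroup (Pts W)} (hs : Stab W T) (hc : Nat.card T = 3)
    {χ : GK K →* ℤˣ} (hχ : Iso (lineRep W T hs) (chRep χ))
    {T' : AddSubgroup (Pts W')} (hs' : Stab W' T') (hc' : Nat.card T' = 3) :
    Iso (lineRep W' T' hs') (chRep χ) ∨ Iso (lineRep W' T' hs') (chRep (χ * om K)) := by
  obtain ⟨d, hd, hl, T₁, hs₁, -, hc₁, h⟩ := key hW hW' hI T hs hc
  have he : χ = qch d := chRep_inj (hχ.symm.trans hl)
  rw [he, ← qch_om hd]
  rcases jh hW' hs₁ hs' hc₁ hc' with h1 | h1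
  · rcases h with h | h
    · exact Or.inl (h1.trans h.1)
    · exact Or.inr (h1.trans h.1)
  · rcases h with h | h
    · exact Or.inr (h1.trans h.2)
    · exact Or.inl (h1.trans h.2)

end

/-- Pairs of isogenous curves. -/
theorem pairs (K : Type u) [Field K] [NumberField K] (W W' : WeierstrassCurve K)
    (hW : W.Δ ≠ 0) (hW' : W'.Δ ≠ 0) (hI : Isogenous W W') :
    ((∀ T : AddSubgroup (Pts W), Stab W T → Nat.card T ≠ 3) →
      (ConjCS 3 W ↔ ConjCS 3 W')) ∧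
    ∀ (T : AddSubgroup (Pts W)) (hs : Stab W T), Nat.card T = 3 →
      (∃ T' : AddSubgroup (Pts W'), Stab W' T' ∧ Nat.card T' = 3) ∧
      ∀ (T' : AddSubgroup (Pts W')) (hs' : Stab W' T'), Nat.card T' = 3 →
        (∀ χ : GK K →* ℤˣ, Iso (lineRep W T hs) (chRep χ) →
          Iso (lineRep W' T' hs') (chRep χ) ∨ Iso (lineRep W' T' hs') (chRep (χ * om K))) ∧
        (ConjCS 3 W ↔ DiscFin W T hs) ∧ (ConjCS 3 W' ↔ DiscFin W' T' hs') ∧
        ((ConjCS 3 W ↔ ConjCS 3 W') ↔ (DiscFin W T hs ↔ DiscFin W' T' hs')) := by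
  refine ⟨simple_case hW hW' hI, fun T hs hc => ⟨?_, fun T' hs' hc' => ?_⟩⟩
  · obtain ⟨d, hd, hl, T₁, hs₁, -, hc₁, h⟩ := key hW hW' hI T hs hc
    exact ⟨T₁, hs₁, hc₁⟩
  · refine ⟨fun χ hχ => chars hW hW' hI hs hc hχ hs' hc', critCS W hW T hs hc,
      critCS W' hW' T' hs' hc', ?_⟩
    rw [critCS W hW T hs hc, critCS W' hW' T' hs' hc']

end Pool.Agent.Helper58.CS
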