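import Pool.Agent.Helper58.P3.StK
import Pool.Agent.Helper58.FS.MainCS

/-!
# The two forms of the definitions
-/

open scoped NumberField

universe u

namespace Pool.Agent.Helper58.CS

open Pool.Agent.Helper58.IQ

theorem conjOver_of' {K : Type u} [Field K] {p : ℕ} {W : WeierstrassCurve K}
    {T : AddSubgroup (Pts W)} (hs : Stab W T) {L : IntermediateField K (Kb K)}
    {σ : Kb K ≃+* Kb K} (f : Pool.Agent.Helper58.FS.torp p W →+ T)
    (hf : Function.Surjective f) (hk : ∀ P, f P = 0 ↔ (P : Pts W) ∈ T)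
    (hg : ∀ g h : GK K, g ∈ L.fixingSubgroup → (∀ x, σ (g x) = h (σ x)) →
      ∀ P Q : Pool.Agent.Helper58.FS.torp p W, (Q : Pts W) = ptsRep W h P →
        (f Q : Pts W) = ptsRep W g (f P)) :
    Pool.Agent.Helper58.FS.ConjOver L σ (lineRep W T hs)
      (Pool.Agent.Helper58.FS.quopRep p W T hs) := by
  have hker : f.ker = T.addSubgroupOf (Pool.Agent.Helper58.FS.torp p W) := by
    ext P
    exact hk P
  let E : (Pool.Agent.Helper58.FS.torp p W ⧸
      T.addSubgroupOf (Pool.Agent.Helper58.FS.torp p W)) ≃+ T :=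
    (QuotientAddGroup.quotientAddEquivOfEq hker.symm).trans
      (QuotientAddGroup.quotientKerEquivOfSurjective f hf)
  have hE : ∀ P : Pool.Agent.Helper58.FS.torp p W, E (QuotientAddGroup.mk P) = f P :=
    fun P => rfl
  refine ⟨E.symm, fun g h hgL hgh m => ?_⟩
  obtain ⟨P, rfl⟩ := hf m
  have h1 : E.symm (f P) = QuotientAddGroup.mk P := by
    rw [AddEquiv.symm_apply_eq, hE]
  have h2 := hg g h hgL hgh P (Pool.Agent.Helper58.FS.torpRep p W h P) rfl
  have h3 : lineRep W T hs g (f P) = f (Pool.Agent.Helper58.FS.torpRep p W h P) :=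
    Subtype.ext h2.symm
  have h4 : E.symm (f (Pool.Agent.Helper58.FS.torpRep p W h P)) =
      QuotientAddGroup.mk (Pool.Agent.Helper58.FS.torpRep p W h P) := by
    rw [AddEquiv.symm_apply_eq, hE]
  change E.symm (lineRep W T hs g (f P)) = Pool.Agent.Helper58.FS.quopRep p W T hs h (E.symm (f P))
  rw [h1, h3, h4]
  rfl

theorem conjOver_of {K : Type u} [Field K] {p : ℕ} {W : WeierstrassCurve K}
    {T : AddSubgroup (Pts W)} (hs : Stab W T) {L : IntermediateField K (Kb K)}
    {σ : Kb K ≃+* Kb K} (h : ConjOver p W T L σ) :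
    Pool.Agent.Helper58.FS.ConjOver L σ (lineRep W T hs)
      (Pool.Agent.Helper58.FS.quopRep p W T hs) := by
  obtain ⟨f, hf, hk, hg⟩ := h
  exact conjOver_of' hs f hf hk (fun g h h1 h2 => hg g h ⟨h1, h2⟩)

theorem conjKernels (K : Type u) [Field K] [NumberField K] (p : ℕ) [Fact p.Prime] (hp : p ≠ 2)
    (W : WeierstrassCurve K) (hW : W.Δ ≠ 0) (T : AddSubgroup (Pts W)) (hs : Stab W T)
    (hT : T ≤ torp p W) (hc : Nat.card T = p) (h : Conj p W T)
    (W' : WeierstrassCurve K) (hW' : W'.Δ ≠ 0) (hI : IsogBoth W W') :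
    ConjCS p W ↔ ConjCS p W' := by
  obtain ⟨L, σ, h1, h2, h3, h4, h5⟩ := h
  exact Pool.Agent.Helper58.FS.tplusCS hp W hW T hs hT hc L h3 σ h4 (conjOver_of hs h5) W' hW' hI

end Pool.Agent.Helper58.CS
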