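import Pool.Agent.Helper58.P3.StM
import Pool.Agent.Helper58.P3.Brg

/-!
# Isogeny invariance at 3 and the curves `y² = x³ + k`
-/

set_option autoImplicit false

open scoped NumberField
open WeierstrassCurve

universe u

namespace Pool.Agent.Helper58.CS

open Pool.Agent.Helper58.IQ

section

variable {K : Type u} [Field K]

theorem E_zero (d b : K) : Pool.Agent.Helper58.IQ.E d 0 b = mordell (d * b ^ 2) := by
  unfold Pool.Agent.Helper58.IQ.E mordell
  simp

theorem good_one [CharZero K] {k : K} (hk : k ≠ 0) : Good k 0 (1 : K) := ⟨hk, one_ne_zero, by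
  intro h
  have : (27 : K) = 0 := by linear_combination -h
  norm_num at this⟩

theorem mordell_disc [CharZero K] {k : K} (hk : k ≠ 0) : (mordell k).Δ ≠ 0 := by
  have h : (mordell k).Δ = -432 * k ^ 2 := by
    simp only [WeierstrassCurve.Δ, WeierstrassCurve.b₂, WeierstrassCurve.b₄,
      WeierstrassCurve.b₆, WeierstrassCurve.b₈, mordell]
    ring
  rw [h]
  exact mul_ne_zero (by norm_num) (pow_ne_zero 2 hk)

theorem b0_mul (d δ : K) : b0 (-3 * d) δ = -3 * b0 d δ := by
  unfold b0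
  ring

theorem neg27_ne [CharZero K] {k : K} (hk : k ≠ 0) : -27 * k ≠ 0 :=
  mul_ne_zero (by norm_num) hk

/-- Two numbers with the same quadratic character. -/
theorem sq_of_qch [CharZero K] {d e : K} (hd : d ≠ 0) (he : e ≠ 0) (h : qch d = qch e) :
    ∃ u : K, u ≠ 0 ∧ d = e * u ^ 2 := by
  obtain ⟨r, hr⟩ := Pool.Agent.Helper27.FS.fixed_mem (K := K) (sqr d * sqr e) (fun g => by
    rw [map_mul, qch_sqr, qch_sqr, h, smul_mul_smul_comm]
    have h1 : ((qch e g : ℤˣ) : ℤ) * ((qch e g : ℤˣ) : ℤ) = 1 := by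
      rcases Int.units_eq_one_or (qch e g) with h2 | h2
      · rw [h2]; rfl
      · rw [h2]; rfl
    rw [h1, one_smul])
  have h2 : r ^ 2 = d * e := by
    apply (algebraMap K (Kb K)).injective
    rw [map_pow, hr, mul_pow, sqr_sq, sqr_sq, map_mul]
  have hr0 : r ≠ 0 := by
    rintro rfl
    rw [zero_pow two_ne_zero] at h2
    exact mul_ne_zero hd he h2.symm
  refine ⟨r / e, div_ne_zero hr0 he, ?_⟩
  rw [div_pow, h2]
  field_simp

end

variable {K : Type u} [Field K] [NumberField K]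

/-- The curve with invariants `d`, `δ` and its twist. -/
theorem QQ_mordell (d δ : K) : Pool.Agent.Helper58.P3.QQ d δ ↔
    Pool.Agent.Helper58.P3.A3 (torRep (mordell (d * (b0 d δ) ^ 2))) := by
  rw [← E_zero]
  rfl

theorem QQ_mordell' (d δ : K) : Pool.Agent.Helper58.P3.QQ (-3 * d) δ ↔
    Pool.Agent.Helper58.P3.A3 (torRep (mordell (-27 * (d * (b0 d δ) ^ 2)))) := by
  rw [QQ_mordell, b0_mul, show -3 * d * (-3 * b0 d δ) ^ 2 = -27 * (d * (b0 d δ) ^ 2) by ring]

/-- The isogeny. -/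
theorem mordell_isog {k : K} (hk : k ≠ 0) : Isogenous (mordell k) (mordell (-27 * k)) := by
  have h := Pool.Agent.Helper99.IS.isogeny k 0 1 (good_one hk)
  rw [E_zero, E_zero] at h
  have e1 : k * 1 ^ 2 = k := by ring
  have e2 : -3 * k * ((27 * 1 - 4 * 0 ^ 3 * k) / 9) ^ 2 = -27 * k := by
    ring
  rwa [e1, e2] at h

theorem linkM {k : K} (hk : k ≠ 0) :
    ConjCS 3 (mordell k) ↔ Pool.Agent.Helper58.P3.A3 (torRep (mordell k)) := by
  rw [conjCS_iff, Pool.Agent.Helper58.P3.link3 _ (mordell_disc hk)]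

/-- The condition for the invariants. -/
theorem mordAt_iff {d : K} (hd : d ≠ 0) : MordAt K d ↔ ∀ δ : K, δ ≠ 0 →
    (Pool.Agent.Helper58.P3.QQ d δ ↔ Pool.Agent.Helper58.P3.QQ (-3 * d) δ) := by
  constructor
  · intro h δ hδ
    have hb : b0 d δ ≠ 0 := (good0 hd hδ).2.1
    have h1 := h (b0 d δ) hb
    have hk : d * (b0 d δ) ^ 2 ≠ 0 := mul_ne_zero hd (pow_ne_zero 2 hb)
    rw [linkM hk, linkM (neg27_ne hk)] at h1
    rw [QQ_mordell, QQ_mordell']
    exact h1
  · intro h u hu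
    have hδ : -27 * u / (4 * d) ≠ 0 :=
      div_ne_zero (mul_ne_zero (by norm_num) hu) (mul_ne_zero (by norm_num) hd)
    have hb : b0 d (-27 * u / (4 * d)) = u := by
      unfold b0
      field_simp
    have h1 := h _ hδ
    rw [QQ_mordell, QQ_mordell', hb] at h1
    have hk : d * u ^ 2 ≠ 0 := mul_ne_zero hd (pow_ne_zero 2 hu)
    rw [linkM hk, linkM (neg27_ne hk)]
    exact h1

/-- The condition on the curves `y² = x³ + k` implies the split form. -/
theorem split_of_mord {e : K} (he : e ≠ 0) (h : MordAt K e) :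
    Pool.Agent.Helper58.P3.SplitAt3 K (qch e) := by
  rw [mordAt_iff he] at h
  have h3 : -3 * e ≠ 0 := mul_ne_zero (by norm_num) he
  have key : ∀ δ : K, δ ≠ 0 →
      (Pool.Agent.Helper58.P3.QQ e δ ↔ Pool.Agent.Helper58.P3.QQ e 1) := by
    intro δ hδ
    rw [Pool.Agent.Helper58.P3.QQ_one he]
    exact ⟨fun h1 => ⟨Pool.Agent.Helper58.P3.a3_sub_of_QQ he hδ h1,
      Pool.Agent.Helper58.P3.a3_sub_of_QQ h3 hδ ((h δ hδ).1 h1)⟩,
      fun h1 => Pool.Agent.Helper58.P3.QQ_of_both he hδ h1.1 h1.2⟩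
  apply Pool.Agent.Helper58.P3.split_at_of_QQ
  intro d δ hm hd hδ
  rcases hm with hm | hm
  · obtain ⟨u, hu, rfl⟩ := sq_of_qch hd he hm
    have h1 := Pool.Agent.Helper58.P3.QQ_sq he hδ hu one_ne_zero
    have h2 := Pool.Agent.Helper58.P3.QQ_sq he (one_ne_zero : (1 : K) ≠ 0) hu one_ne_zero
    rw [one_pow, mul_one] at h1 h2
    rw [← h1, ← h2]
    exact key δ hδ
  · rw [← qch_om he] at hm
    obtain ⟨u, hu, rfl⟩ := sq_of_qch hd h3 hm
    have h1 := Pool.Agent.Helper58.P3.QQ_sq h3 hδ hu one_ne_zero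
    have h2 := Pool.Agent.Helper58.P3.QQ_sq h3 (one_ne_zero : (1 : K) ≠ 0) hu one_ne_zero
    rw [one_pow, mul_one] at h1 h2
    rw [← h1, ← h2, ← h δ hδ, ← h 1 one_ne_zero]
    exact key δ hδ

theorem mord_of_isog {e : K} (he : e ≠ 0) (h : IsogCSAt K (qch e)) : MordAt K e := by
  intro u hu
  have hk : e * u ^ 2 ≠ 0 := mul_ne_zero he (pow_ne_zero 2 hu)
  have hk' := neg27_ne hk
  have h1 : Has (qch e) (mordell (e * u ^ 2)) := by
    rw [← E_zero]
    exact has_E ⟨he, hu, by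
      intro h
      have : (27 : K) * u = 0 := by linear_combination -h
      exact hu ((mul_eq_zero.1 this).resolve_left (by norm_num))⟩ (Or.inl rfl)
  have h2 : Has (qch e) (mordell (-27 * (e * u ^ 2))) := by
    have e1 : -27 * (e * u ^ 2) = -3 * e * (3 * u) ^ 2 := by ring
    rw [e1, ← E_zero]
    refine has_E ⟨mul_ne_zero (by norm_num) he, mul_ne_zero (by norm_num) hu, ?_⟩
      (Or.inr (qch_om he))
    intro h
    have : (81 : K) * u = 0 := by linear_combination -h
    exact hu ((mul_eq_zero.1 this).resolve_left (by norm_num))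
  exact h _ _ (mordell_disc hk) (mordell_disc hk') h1 h2 (mordell_isog hk)

/-- The curves `y² = x³ + k` and `y² = x³ + 729 k` have isomorphic 3-torsion. -/
theorem mordell_729 {k : K} (hk : k ≠ 0) :
    Pool.Agent.Helper58.P3.A3 (torRep (mordell (-27 * (-27 * k)))) ↔
      Pool.Agent.Helper58.P3.A3 (torRep (mordell k)) := by
  have h1 : Iso (torRep (Pool.Agent.Helper58.IQ.E k 0 1))
      (torRep (Pool.Agent.Helper58.IQ.E (k * 27 ^ 2) 0 1)) := by
    apply E_iso (good_one hk) (good_one (mul_ne_zero hk (by norm_num))) (u := 27) (c := 1 / 9)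
      (by norm_num) (by norm_num) rfl
    unfold del
    field_simp
    norm_num
  rw [E_zero, E_zero] at h1
  have e1 : k * 1 ^ 2 = k := by ring
  have e2 : k * 27 ^ 2 * 1 ^ 2 = -27 * (-27 * k) := by ring
  rw [e1, e2] at h1
  exact (Pool.Agent.Helper58.P3.a3_iso h1).symm

theorem tfaeM {d : K} (hd : d ≠ 0) :
    List.TFAE [IsogCSAt K (qch d), MordAt K d, ConstCSAt K (qch d), SplitCSAt K (qch d),
      ExtSel K (qch d), CubicRefl K (qch d)] := by
  have h := (final K).1 (qch d) (Pool.Agent.Helper58.P3.qch_locConst d)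
  tfae_have 1 → 2 := mord_of_isog hd
  tfae_have 2 → 4 := fun h1 =>
    (Pool.Agent.Helper58.P3.splitCSAt_iff (qch d)).2 (split_of_mord hd h1)
  tfae_have 1 ↔ 3 := h.out 0 2
  tfae_have 1 ↔ 4 := h.out 0 1
  tfae_have 1 ↔ 5 := h.out 0 3
  tfae_have 1 ↔ 6 := h.out 0 5
  tfae_finish

/-- Isogeny invariance at 3 and the curves `y² = x³ + k`. -/
theorem isogM : IsogCS K ↔
    ∀ k : K, k ≠ 0 → ConjCS 3 (mordell k) → ConjCS 3 (mordell (-27 * k)) := by
  constructor
  · intro h k hk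
    exact (h _ _ (mordell_disc hk) (mordell_disc (neg27_ne hk)) (mordell_isog hk)).1
  · intro h
    rw [(final K).2]
    intro χ hχ
    obtain ⟨d, hd, rfl⟩ := Pool.Agent.Helper58.P3.exists_qch hχ
    have h1 : MordAt K d := by
      intro u hu
      have hk : d * u ^ 2 ≠ 0 := mul_ne_zero hd (pow_ne_zero 2 hu)
      refine ⟨h _ hk, fun h2 => ?_⟩
      have h3 := h _ (neg27_ne hk) h2
      rw [linkM (neg27_ne (neg27_ne hk)), mordell_729 hk] at h3
      rwa [linkM hk]
    exact ((tfaeM hd).out 1 5).1 h1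

end Pool.Agent.Helper58.CS
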