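import Pool.Agent.Helper58.P3.Cubic
import Pool.Agent.Helper58.FS.CS

/-!
# Isogeny invariance of Conjecture A of Coates and Sujatha for `p = 3`: the statements
-/

open scoped NumberField

universe u

namespace Pool.Agent.Helper58.P3

open Pool.Agent.Helper58.IQ Pool.Agent.Helper58.FS

/-- Isogeny invariance of Conjecture A (Q1 for `p = 3` over `K`). -/
def IsogCS (K : Type u) [Field K] : Prop :=
  ∀ W W' : WeierstrassCurve K, W.Δ ≠ 0 → W'.Δ ≠ 0 → Isogenous W W' →
    (ConjCS 3 W ↔ ConjCS 3 W')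

/-- Isogeny invariance for the curves `W` such that `W[3]` contains `F_3(χ)` or `F_3(χω)`. -/
def IsogCSAt (K : Type u) [Field K] [CharZero K] (χ : GK K →* ℤˣ) : Prop :=
  ∀ W W' : WeierstrassCurve K, W.Δ ≠ 0 → W'.Δ ≠ 0 → Has χ W → Has χ W' → Isogenous W W' →
    (ConjCS 3 W ↔ ConjCS 3 W')

/-- For the curves `W` such that `W[3]` contains `F_3(χ)` or `F_3(χω)`: Conjecture A holds for `W`
if and only if the fine Selmer groups of `F_3(χ)` and `F_3(χω)` over the cyclotomic
`ℤ_3`-extension of `K` are finite. -/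
def SplitCSAt (K : Type u) [Field K] [CharZero K] (χ : GK K →* ℤˣ) : Prop :=
  ∀ W : WeierstrassCurve K, W.Δ ≠ 0 → Has χ W →
    (ConjCS 3 W ↔ A3 (chRep χ) ∧ A3 (chRep (χ * om K)))

/-- Conjecture A holds for all or for none of the curves `W` such that `W[3]` contains `F_3(χ)`
or `F_3(χω)`. -/
def ConstCSAt (K : Type u) [Field K] [CharZero K] (χ : GK K →* ℤˣ) : Prop :=
  ∀ W W' : WeierstrassCurve K, W.Δ ≠ 0 → W'.Δ ≠ 0 → Has χ W → Has χ W' →
    (ConjCS 3 W ↔ ConjCS 3 W')

end Pool.Agent.Helper58.P3
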