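import Pool.Agent.Helper58.P3.Base
import Pool.Agent.Helper58.IQ.Ext

/-!
# The chain of `IQ/Split`, `IQ/Line`, `IQ/Ext` for the fine Selmer groups
-/

open scoped NumberField
open WeierstrassCurve

universe u

namespace Pool.Agent.Helper58.P3

open Pool.Agent.Helper58.IQ Pool.Agent.Helper58.FS

variable {K : Type u} [Field K] [NumberField K]

/-- Isogeny invariance for the curves `W` such that `W[3]` contains `F_3(χ)` or `F_3(χω)`. -/
def IsogAt3 (K : Type u) [Field K] [CharZero K] (χ : GK K →* ℤˣ) : Prop :=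
  ∀ W W' : WeierstrassCurve K, W.Δ ≠ 0 → W'.Δ ≠ 0 → Has χ W → Has χ W' → Isogenous W W' →
    (A3 (torRep W) ↔ A3 (torRep W'))

/-- The split form for the curves `W` such that `W[3]` contains `F_3(χ)` or `F_3(χω)`. -/
def SplitAt3 (K : Type u) [Field K] [CharZero K] (χ : GK K →* ℤˣ) : Prop :=
  ∀ W : WeierstrassCurve K, W.Δ ≠ 0 → Has χ W →
    (A3 (torRep W) ↔ A3 (chRep χ) ∧ A3 (chRep (χ * om K)))

/-- The condition holds for all or no curve. -/
def ConstAt3 (K : Type u) [Field K] [CharZero K] (χ : GK K →* ℤˣ) : Prop :=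
  ∀ W W' : WeierstrassCurve K, W.Δ ≠ 0 → W'.Δ ≠ 0 → Has χ W → Has χ W' →
    (A3 (torRep W) ↔ A3 (torRep W'))

/-- For every continuous module `M` killed by 3 with a submodule `N` such that `N` and `M / N`
are `F_3(χ)` and `F_3(χω)`, in either order: the fine Selmer group of `M` is finite if and only if
those of `F_3(χ)` and `F_3(χω)` are. -/
def ExtSel (K : Type u) [Field K] [CharZero K] (χ : GK K →* ℤˣ) : Prop :=
  ∀ (M : Type u) [AddCommGroup M] (ρ : GK K →* AddMonoid.End M) (N : AddSubgroup M)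
    (hN : ∀ g, ∀ x ∈ N, ρ g x ∈ N), (∀ x : M, 3 • x = 0) → Cont ρ →
    ((Iso (subRep ρ N hN) (chRep χ) ∧ Iso (quoRep ρ N hN) (chRep (χ * om K))) ∨
      (Iso (subRep ρ N hN) (chRep (χ * om K)) ∧ Iso (quoRep ρ N hN) (chRep χ))) →
    (A3 ρ ↔ A3 (chRep χ) ∧ A3 (chRep (χ * om K)))

/-- Conjecture A for the curve with invariants `d`, `δ`. -/
def QQ (d δ : K) : Prop := A3 (torRep (E d 0 (b0 d δ)))

theorem QQ_of_E {d a b : K} (h : Good d a b) (hδ : del d a b ≠ 0) :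
    A3 (torRep (E d a b)) ↔ QQ d (del d a b) := by
  apply a3_iso
  apply E_iso h (good0 h.1 hδ) (u := 1) (c := 1) one_ne_zero one_ne_zero
  · ring
  · rw [del0 h.1]
    ring

theorem QQ_sq {d δ u c : K} (hd : d ≠ 0) (hδ : δ ≠ 0) (hu : u ≠ 0) (hc : c ≠ 0) :
    QQ d δ ↔ QQ (d * u ^ 2) (δ * c ^ 3) := by
  apply a3_iso
  have hd' : d * u ^ 2 ≠ 0 := mul_ne_zero hd (pow_ne_zero 2 hu)
  have hδ' : δ * c ^ 3 ≠ 0 := mul_ne_zero hδ (pow_ne_zero 3 hc)
  apply E_iso (good0 hd hδ) (good0 hd' hδ') hu hc rfl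
  rw [del0 hd, del0 hd']

theorem QQ_one {d : K} (hd : d ≠ 0) :
    QQ d 1 ↔ A3 (chRep (qch d)) ∧ A3 (chRep (qch (-3 * d))) := by
  have h1 : QQ d 1 ↔ A3 (prodRep (chRep (qch d)) (chRep (qch (-3 * d)))) := by
    apply a3_iso
    apply E_split (good0 hd one_ne_zero) (c := 1)
    rw [del0 hd]
    ring
  rw [h1]
  exact a3_prod (cont_ch d) (cont_ch _) (by decide) (by decide)

theorem conj_mem {χ : GK K →* ℤˣ} {d : K} (hd : d ≠ 0) (h : Mem χ d) :
    (A3 (chRep (qch d)) ∧ A3 (chRep (qch (-3 * d)))) ↔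
      A3 (chRep χ) ∧ A3 (chRep (χ * om K)) := by
  rcases h with h | h
  · rw [qch_om hd, h]
  · rw [qch_om hd, h, mul_om_om]
    exact and_comm

section

variable {χ : GK K →* ℤˣ}

theorem step_at (hI : IsogAt3 K χ) {d δ a : K} (hm : Mem χ d) (hd : d ≠ 0) (hδ : δ ≠ 0)
    (ha : a ^ 3 ≠ δ) : QQ d δ ↔ QQ (-3 * d) (a ^ 3 - δ) := by
  have hG := good1 hd hδ ha
  have hG' := good_dual hG
  have h1 : A3 (torRep (E d a (b1 d a δ))) ↔ QQ d δ := by
    have := QQ_of_E hG (by rw [del1 hd]; exact hδ)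
    rwa [del1 hd] at this
  have h2 := QQ_of_E hG' (by rw [del_dual hG, del1 hd]; exact sub_ne_zero.2 ha)
  rw [del_dual hG, del1 hd] at h2
  rw [← h1, ← h2]
  exact hI _ _ (disc_ne hG) (disc_ne hG') (has_E hG hm) (has_E hG' (hm.dual hd))
    (Pool.Agent.Helper99.IS.isogeny d a _ hG)

theorem path_at (hI : IsogAt3 K χ) {d δ : K} (hm : Mem χ d) (hd : d ≠ 0) (hδ : δ ≠ 0) :
    QQ d δ ↔ QQ d 1 := by
  have h := Pool.Agent.Helper69.RY.path (fun d δ => Mem χ d → QQ d δ)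
    (fun d δ u c hd hδ hu hc => by rw [mem_sq hd hu, ← QQ_sq hd hδ hu hc])
    (fun d δ a hd hδ ha => by
      rw [mem_dual hd]
      constructor
      · intro h hm
        exact (step_at hI hm hd hδ ha).1 (h hm)
      · intro h hm
        exact (step_at hI hm hd hδ ha).2 (h hm)) d δ hd hδ
  simpa [hm] using h

theorem split_at_of_QQ (h : ∀ d δ : K, Mem χ d → d ≠ 0 → δ ≠ 0 → (QQ d δ ↔ QQ d 1)) :
    SplitAt3 K χ := by
  intro W hW hH
  obtain ⟨d, a, b, hG, hm, hi⟩ := has_form hW hH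
  rw [a3_iso hi, QQ_of_E hG (del_ne hG), h d _ hm hG.1 (del_ne hG),
    QQ_one hG.1]
  exact conj_mem hG.1 hm

theorem split_at (hI : IsogAt3 K χ) : SplitAt3 K χ :=
  split_at_of_QQ fun _ _ hm hd hδ => path_at hI hm hd hδ

theorem const_at (hS : SplitAt3 K χ) : ConstAt3 K χ := fun W W' hW hW' hH hH' => by
  rw [hS W hW hH, hS W' hW' hH']

theorem isog_at (hC : ConstAt3 K χ) : IsogAt3 K χ := fun W W' hW hW' hH hH' _ =>
  hC W W' hW hW' hH hH'

theorem ext_at (hS : SplitAt3 K χ) : ExtSel K χ := by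
  intro M _ ρ N hN h3 hρ hi
  have key : ∃ ψ : GK K →* ℤˣ, (ψ = χ ∨ ψ = χ * om K) ∧ Iso (subRep ρ N hN) (chRep ψ) ∧
      Iso (quoRep ρ N hN) (chRep (ψ * qch (-3 : K))) := by
    rcases hi with ⟨h1, h2⟩ | ⟨h1, h2⟩
    · exact ⟨χ, Or.inl rfl, h1, h2⟩
    · refine ⟨χ * om K, Or.inr rfl, h1, ?_⟩
      change Iso (quoRep ρ N hN) (chRep (χ * om K * om K))
      rw [mul_om_om]
      exact h2
  obtain ⟨ψ, hψ, h1, h2⟩ := key
  obtain ⟨d, δ, hd, hδ, rfl, hiso⟩ := Pool.Agent.Helper69.RY.kummer_of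
    Pool.Agent.Helper99.IS.hilbert90 ρ h3 hρ N hN ψ h1 h2
  rw [a3_iso hiso]
  exact hS _ (disc_ne (good0 hd hδ)) (has_E (good0 hd hδ) hψ)

theorem split_at_of_ext (hE : ExtSel K χ) : SplitAt3 K χ := by
  intro W hW hH
  obtain ⟨T, hs, hT, hi⟩ := hH
  have hc : Nat.card T = 3 := by
    rcases hi with ⟨e, -⟩ | ⟨e, -⟩ <;>
    rw [Nat.card_congr e.toEquiv, Nat.card_zmod]
  obtain ⟨d, a, b, hG, -, h2, -, t, w, k, hf, hl⟩ := formW W hW T hs hT hc
  have hs' : ∀ g, ∀ x ∈ T.addSubgroupOf (tor3 W), torRep W g x ∈ T.addSubgroupOf (tor3 W) :=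
    fun g x hx => hs g x hx
  apply hE (tor3 W) (torRep W) (T.addSubgroupOf (tor3 W)) hs'
    (fun x => Subtype.ext x.2) (Pool.Agent.Helper99.IS.cont_tor W)
  have h5 := hf.sub_iso (fun P => hl P) hs'
  have h6 := hf.quo_iso (fun P => hl P) hs'
  rw [qch_om hG.1] at h6
  rcases hi with hi | hi
  · have e := chRep_inj (h2.symm.trans hi)
    rw [e] at h5 h6
    exact Or.inl ⟨h5, h6⟩
  · have e := chRep_inj (h2.symm.trans hi)
    rw [e] at h5 h6
    rw [mul_om_om] at h6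
    exact Or.inr ⟨h5, h6⟩

end

end Pool.Agent.Helper58.P3
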