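import Pool.Agent.Helper58.IQ.Stmt

/-!
# Conjecture A of Coates and Sujatha and fine Selmer groups of Galois modules

`K` is a field, `Kb` an algebraic closure, and `H` is a subgroup of `Gal(Kb/K)`; it is the Galois
group of `Kb/F` for a field `F`. A module is given by `ρ : Gal(Kb/K) →* AddMonoid.End M`.
-/

open scoped NumberField Pointwise

namespace Pool.Agent.Helper58.CS

open Pool.Agent.Helper58.IQ

section

variable {K : Type*} [Field K] {M : Type*} [AddCommGroup M]

/-- `c` is a continuous cocycle of `H` with values in `M` whose class is locally trivial at all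
primes: for every nonzero prime `P` of the ring of integers of `Kb` the restriction of `c` to the
decomposition group of `P` in `H` is a coboundary. -/
def LocTriv (ρ : GK K →* AddMonoid.End M) (H : Subgroup (GK K)) (c : H → M) : Prop :=
  IsLocallyConstant c ∧ (∀ g h : H, c (g * h) = c g + ρ g (c h)) ∧
    ∀ P : Ideal (𝓞 (Kb K)), P.IsPrime → P ≠ ⊥ →
      ∃ m : M, ∀ g : H, (g : GK K) • P = P → c g = ρ g m - m

/-- `c` is a coboundary of `H` with values in `M`. -/
def Cob (ρ : GK K →* AddMonoid.End M) (H : Subgroup (GK K)) (c : H → M) : Prop :=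
  ∃ m : M, ∀ g : H, c g = ρ g m - m

variable {ρ : GK K →* AddMonoid.End M} {H : Subgroup (GK K)} {c d : H → M}

theorem LocTriv.zero : LocTriv ρ H 0 :=
  ⟨IsLocallyConstant.const 0, fun g h => by simp, fun P _ _ => ⟨0, fun g _ => by simp⟩⟩

theorem LocTriv.add (hc : LocTriv ρ H c) (hd : LocTriv ρ H d) : LocTriv ρ H (c + d) := by
  obtain ⟨hc1, hc2, hc3⟩ := hc
  obtain ⟨hd1, hd2, hd3⟩ := hd
  refine ⟨hc1.add hd1, fun g h => ?_, fun P hP h0 => ?_⟩
  · simp only [Pi.add_apply, hc2 g h, hd2 g h, map_add]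
    abel
  · obtain ⟨m, hm⟩ := hc3 P hP h0
    obtain ⟨n, hn⟩ := hd3 P hP h0
    refine ⟨m + n, fun g hg => ?_⟩
    simp only [Pi.add_apply, hm g hg, hn g hg, map_add]
    abel

theorem LocTriv.neg (hc : LocTriv ρ H c) : LocTriv ρ H (-c) := by
  obtain ⟨hc1, hc2, hc3⟩ := hc
  refine ⟨hc1.neg, fun g h => ?_, fun P hP h0 => ?_⟩
  · simp only [Pi.neg_apply, hc2 g h, map_neg]
    abel
  · obtain ⟨m, hm⟩ := hc3 P hP h0
    refine ⟨-m, fun g hg => ?_⟩
    simp only [Pi.neg_apply, hm g hg, map_neg]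
    abel

theorem Cob.zero : Cob ρ H 0 := ⟨0, fun g => by simp⟩

theorem Cob.add (hc : Cob ρ H c) (hd : Cob ρ H d) : Cob ρ H (c + d) := by
  obtain ⟨m, hm⟩ := hc
  obtain ⟨n, hn⟩ := hd
  refine ⟨m + n, fun g => ?_⟩
  simp only [Pi.add_apply, hm g, hn g, map_add]
  abel

theorem Cob.neg (hc : Cob ρ H c) : Cob ρ H (-c) := by
  obtain ⟨m, hm⟩ := hc
  refine ⟨-m, fun g => ?_⟩
  simp only [Pi.neg_apply, hm g, map_neg]
  abel

variable (ρ H)

/-- The group of all `c` with `LocTriv ρ H c`. -/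
def selZ : AddSubgroup (H → M) where
  carrier := {c | LocTriv ρ H c}
  zero_mem' := LocTriv.zero
  add_mem' := LocTriv.add
  neg_mem' := LocTriv.neg

/-- The group of the coboundaries. -/
def selB : AddSubgroup (H → M) where
  carrier := {c | Cob ρ H c}
  zero_mem' := Cob.zero
  add_mem' := Cob.add
  neg_mem' := Cob.neg

/-- The fine Selmer group of `M` over the fixed field of `H`: the everywhere locally trivial
classes in `H¹(H, M)`. -/
def Sel : Type _ := selZ ρ H ⧸ (selB ρ H).addSubgroupOf (selZ ρ H)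

instance : AddCommGroup (Sel ρ H) := QuotientAddGroup.Quotient.addCommGroup _

/-- The fine Selmer group of `M` over the fixed field of `H` is finite. -/
def FinSel : Prop := Finite (Sel ρ H)

end

/-- The group `ℚ_p/ℤ_p`. -/
abbrev QZ (p : ℕ) [Fact p.Prime] : Type :=
  ℚ_[p] ⧸ LinearMap.range (Algebra.linearMap ℤ_[p] ℚ_[p])

/-- `Hom(A, ℚ_p/ℤ_p)` is a finitely generated `ℤ_p`-module. -/
def CoFin (p : ℕ) [Fact p.Prime] (A : Type*) [AddCommGroup A] : Prop :=
  Module.Finite ℤ_[p] (A →+ QZ p)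

/-- The subgroup of all elements of `p`-power order of an abelian group. -/
def torInf (p : ℕ) (A : Type*) [AddCommGroup A] : AddSubgroup A where
  carrier := {P | ∃ n : ℕ, p ^ n • P = 0}
  zero_mem' := ⟨0, by simp⟩
  add_mem' := by
    rintro P Q ⟨n, hn⟩ ⟨m, hm⟩
    refine ⟨n + m, ?_⟩
    have h1 : p ^ (n + m) • P = 0 := by
      rw [pow_add, mul_comm, mul_nsmul', hn]
      exact nsmul_zero _
    have h2 : p ^ (n + m) • Q = 0 := by
      rw [pow_add, mul_nsmul', hm]
      exact nsmul_zero _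
    rw [nsmul_add, h1, h2, add_zero]
  neg_mem' := by
    rintro P ⟨n, hn⟩
    exact ⟨n, by rw [smul_neg, hn, neg_zero]⟩

variable {K : Type*} [Field K]

theorem stab_torInf (p : ℕ) (W : WeierstrassCurve K) : Stab W (torInf p (Pts W)) :=
  fun g P hP => by
  obtain ⟨n, hn⟩ := hP
  exact ⟨n, by rw [← map_nsmul, hn, map_zero]⟩

/-- Conjecture A of Coates and Sujatha for `W` and `p`: the Pontryagin dual of the fine Selmer
group of `W[p^∞]` over the cyclotomic `ℤ_p`-extension of `K` is a finitely generated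
`ℤ_p`-module. -/
def ConjCS (p : ℕ) [Fact p.Prime] (W : WeierstrassCurve K) : Prop :=
  CoFin p (Sel (lineRep W (torInf p (Pts W)) (stab_torInf p W)) (Gcyc K p))

end Pool.Agent.Helper58.CS
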