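import Pool.Agent.Helper58.P3.Chain
import Pool.Agent.Helper27.FS.Cubic

/-!
# Pure cubic extensions
-/

open scoped NumberField
open WeierstrassCurve

universe u

namespace Pool.Agent.Helper58.P3

open Pool.Agent.Helper58.IQ Pool.Agent.Helper58.FS

/-- For every pure cubic extension `B = K(θ)` of `K` (`θ³ = δ`, where `δ` is in `K` and not a
cube in `K`): if the fine Selmer group of `F_3(χ)` over the cyclotomic `ℤ_3`-extension of `B` is
finite, then that of `F_3(χω)` over the cyclotomic `ℤ_3`-extension of `K` is finite; and the same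
with `χ` and `χω` exchanged. -/
def CubicAt (K : Type u) [Field K] [CharZero K] (χ : GK K →* ℤˣ) : Prop :=
  ∀ (θ : Kb K) (δ : K), θ ^ 3 = algebraMap K (Kb K) δ → (∀ c : K, c ^ 3 ≠ δ) →
    (FinSel (chRep χ) ((IntermediateField.adjoin K {θ}).fixingSubgroup ⊓ Gcyc K 3) →
      A3 (chRep (χ * om K))) ∧
    (FinSel (chRep (χ * om K)) ((IntermediateField.adjoin K {θ}).fixingSubgroup ⊓ Gcyc K 3) →
      A3 (chRep χ))

/-- For every pure cubic extension `B = K(θ)` of `K`: the fine Selmer group of `F_3(χ)` over the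
cyclotomic `ℤ_3`-extension of `B` is finite if and only if that of `F_3(χω)` is. -/
def CubicRefl (K : Type u) [Field K] [CharZero K] (χ : GK K →* ℤˣ) : Prop :=
  ∀ (θ : Kb K) (δ : K), θ ^ 3 = algebraMap K (Kb K) δ → (∀ c : K, c ^ 3 ≠ δ) →
    (FinSel (chRep χ) ((IntermediateField.adjoin K {θ}).fixingSubgroup ⊓ Gcyc K 3) ↔
      FinSel (chRep (χ * om K)) ((IntermediateField.adjoin K {θ}).fixingSubgroup ⊓ Gcyc K 3))

variable {K : Type u} [Field K] [NumberField K]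

theorem isOpen_adjoin (θ : Kb K) :
    IsOpen ((IntermediateField.adjoin K {θ}).fixingSubgroup : Set (GK K)) := by
  have : FiniteDimensional K (IntermediateField.adjoin K {θ}) :=
    IntermediateField.adjoin.finiteDimensional (Algebra.IsIntegral.isIntegral θ)
  exact IntermediateField.fixingSubgroup_isOpen _

theorem finite_tor3 (W : WeierstrassCurve K) (hW : W.Δ ≠ 0) : Finite (tor3 W) :=
  Nat.finite_of_card_ne_zero (by
    rw [Pool.Agent.Helper21.EC.card_tor3 W hW]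
    norm_num)

/-- The key equivalence for a single curve `E d 0 (b0 d δ)`. -/
theorem qq_cubic {d δ : K} (hd : d ≠ 0) (hδ : ∀ c : K, c ^ 3 ≠ δ) (hω : om K ≠ 1)
    (θ : Kb K) (hθ : θ ^ 3 = algebraMap K (Kb K) δ) :
    QQ d δ ↔ FinSel (chRep (qch d))
      ((IntermediateField.adjoin K {θ}).fixingSubgroup ⊓ Gcyc K 3) := by
  have hδ0 : δ ≠ 0 := fun h0 => hδ 0 (by rw [h0]; ring)
  have hG := good0 hd hδ0
  obtain ⟨t, w, hf, -⟩ := form_E hG (θ := θ) (by rw [hθ, del0 hd])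
  have h4 : qch (-3 * d) = qch d * qch (-3 : K) := qch_om hd
  rw [h4] at hf
  have h3 : ∃ g : GK K, qch (-3 : K) g ≠ 1 := by
    by_contra h
    push Not at h
    exact hω (MonoidHom.ext h)
  exact Pool.Agent.Helper27.FS.cubic (torRep (E d 0 (b0 d δ)))
    (Pool.Agent.Helper99.IS.cont_tor _) t w (qch d) θ δ hθ hδ h3 hf

/-- From a finite fine Selmer group of the curve to that of the subgroup. -/
theorem a3_sub_of_QQ {d δ : K} (hd : d ≠ 0) (hδ : δ ≠ 0) (h : QQ d δ) : A3 (chRep (qch d)) := by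
  have hG := good0 hd hδ
  obtain ⟨θ, hθ⟩ := IsAlgClosed.exists_pow_nat_eq
    (algebraMap K (Kb K) (del d 0 (b0 d δ))) (n := 3) (by norm_num)
  obtain ⟨t, w, hf, -⟩ := form_E hG hθ
  have := finite_tor3 _ (disc_ne hG)
  have hs : ∀ g, ∀ x ∈ AddSubgroup.zmultiples t, torRep (E d 0 (b0 d δ)) g x ∈
      AddSubgroup.zmultiples t := by
    rintro g _ ⟨m, rfl⟩
    change torRep _ g (m • t) ∈ _
    rw [map_zsmul, hf.gt, smul_smul]
    exact ⟨_, rfl⟩
  have h1 := Pool.Agent.Helper99.FS.sel_sub _ (Pool.Agent.Helper99.IS.cont_tor _)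
    (AddSubgroup.zmultiples t) hs _ h
  exact (a3_iso (hf.sub_iso (fun P => by
    rw [AddSubgroup.mem_zmultiples_iff]
    exact ⟨fun ⟨m, hm⟩ => ⟨m, hm.symm⟩, fun ⟨m, hm⟩ => ⟨m, hm.symm⟩⟩) hs)).1 h1

theorem QQ_of_both {d δ : K} (hd : d ≠ 0) (hδ : δ ≠ 0) (h1 : A3 (chRep (qch d)))
    (h2 : A3 (chRep (qch (-3 * d)))) : QQ d δ := by
  have hG := good0 hd hδ
  obtain ⟨θ, hθ⟩ := IsAlgClosed.exists_pow_nat_eq
    (algebraMap K (Kb K) (del d 0 (b0 d δ))) (n := 3) (by norm_num)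
  obtain ⟨t, w, hf, -⟩ := form_E hG hθ
  have := finite_tor3 _ (disc_ne hG)
  have hs : ∀ g, ∀ x ∈ AddSubgroup.zmultiples t, torRep (E d 0 (b0 d δ)) g x ∈
      AddSubgroup.zmultiples t := by
    rintro g _ ⟨m, rfl⟩
    change torRep _ g (m • t) ∈ _
    rw [map_zsmul, hf.gt, smul_smul]
    exact ⟨_, rfl⟩
  have hm : ∀ P, P ∈ AddSubgroup.zmultiples t ↔ ∃ m : ℤ, P = m • t := fun P => by
    rw [AddSubgroup.mem_zmultiples_iff]
    exact ⟨fun ⟨m, hm⟩ => ⟨m, hm.symm⟩, fun ⟨m, hm⟩ => ⟨m, hm.symm⟩⟩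
  exact a3_ext _ (Pool.Agent.Helper99.IS.cont_tor _) (fun x => Subtype.ext x.2) _ hs
    ((a3_iso (hf.sub_iso hm hs)).2 h1) ((a3_iso (hf.quo_iso hm hs)).2 h2)

theorem om_sq_iff {χ : GK K →* ℤˣ} (h : om K = 1) : χ * om K = χ := by
  rw [h, mul_one]

/-- (iv) implies (v). -/
theorem cubic_of_split {χ : GK K →* ℤˣ} (hχ : IsLocallyConstant (χ : GK K → ℤˣ))
    (hS : SplitAt3 K χ) : CubicAt K χ := by
  intro θ δ hθ hδ
  have hδ0 : δ ≠ 0 := fun h0 => hδ 0 (by rw [h0]; ring)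
  obtain ⟨d, hd, rfl⟩ := exists_qch hχ
  by_cases hω : om K = 1
  · rw [om_sq_iff hω]
    exact ⟨fun h => sel_down _ (cont_ch d) _ _ (isOpen_adjoin θ) h,
      fun h => sel_down _ (cont_ch d) _ _ (isOpen_adjoin θ) h⟩
  · constructor
    · intro h
      have h1 := (qq_cubic hd hδ hω θ hθ).2 h
      exact ((hS _ (disc_ne (good0 hd hδ0)) (has_E (good0 hd hδ0) (Or.inl rfl))).1 h1).2
    · intro h
      have h3 : (-3 : K) * d ≠ 0 := mul_ne_zero (by norm_num) hd
      rw [← qch_om hd] at h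
      have h1 := (qq_cubic h3 hδ hω θ hθ).2 h
      exact ((hS _ (disc_ne (good0 h3 hδ0)) (has_E (good0 h3 hδ0) (Or.inr (qch_om hd)))).1 h1).1

/-- (v) implies (ii). -/
theorem split_of_cubic {χ : GK K →* ℤˣ} (hC : CubicAt K χ) : SplitAt3 K χ := by
  apply split_at_of_QQ
  intro d δ hm hd hδ
  rw [QQ_one hd]
  constructor
  · intro h
    refine ⟨a3_sub_of_QQ hd hδ h, ?_⟩
    by_cases hc : ∃ c : K, c ^ 3 = δ
    · obtain ⟨c, rfl⟩ := hc
      have hc0 : c ≠ 0 := fun h0 => hδ (by rw [h0]; ring)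
      have h1 := (QQ_sq hd one_ne_zero one_ne_zero hc0).2 (by
        rw [one_pow, mul_one, one_mul]
        exact h)
      exact ((QQ_one hd).1 h1).2
    · push Not at hc
      by_cases hω : om K = 1
      · rw [qch_om hd, om_sq_iff hω]
        exact a3_sub_of_QQ hd hδ h
      · obtain ⟨θ, hθ⟩ := IsAlgClosed.exists_pow_nat_eq (algebraMap K (Kb K) δ) (n := 3)
          (by norm_num)
        have h1 := (qq_cubic hd hc hω θ hθ).1 h
        obtain ⟨h2, h3⟩ := hC θ δ hθ hc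
        rw [qch_om hd]
        rcases hm with hm | hm
        · rw [hm] at h1 ⊢
          exact h2 h1
        · rw [hm] at h1 ⊢
          rw [mul_om_om]
          exact h3 h1
  · rintro ⟨h1, h2⟩
    exact QQ_of_both hd hδ h1 h2

/-- (ii) implies (vi). -/
theorem refl_of_split {χ : GK K →* ℤˣ} (hχ : IsLocallyConstant (χ : GK K → ℤˣ))
    (hS : SplitAt3 K χ) : CubicRefl K χ := by
  intro θ δ hθ hδ
  have hδ0 : δ ≠ 0 := fun h0 => hδ 0 (by rw [h0]; ring)
  obtain ⟨d, hd, rfl⟩ := exists_qch hχ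
  by_cases hω : om K = 1
  · rw [om_sq_iff hω]
  · have h3 : (-3 : K) * d ≠ 0 := mul_ne_zero (by norm_num) hd
    rw [← qch_om hd, ← qq_cubic hd hδ hω θ hθ, ← qq_cubic h3 hδ hω θ hθ]
    have h1 := hS _ (disc_ne (good0 hd hδ0)) (has_E (good0 hd hδ0) (Or.inl rfl))
    have h2 := hS _ (disc_ne (good0 h3 hδ0)) (has_E (good0 h3 hδ0) (Or.inr (qch_om hd)))
    unfold QQ
    rw [h1, h2]

/-- (vi) implies (v). -/
theorem cubic_of_refl {χ : GK K →* ℤˣ} (hχ : IsLocallyConstant (χ : GK K → ℤˣ))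
    (hR : CubicRefl K χ) : CubicAt K χ := by
  intro θ δ hθ hδ
  obtain ⟨d, hd, rfl⟩ := exists_qch hχ
  have h := hR θ δ hθ hδ
  constructor
  · intro h1
    have h2 := h.1 h1
    rw [← qch_om hd] at h2 ⊢
    exact sel_down _ (cont_ch _) _ _ (isOpen_adjoin θ) h2
  · intro h1
    exact sel_down _ (cont_ch _) _ _ (isOpen_adjoin θ) (h.2 h1)

theorem tfae_at3 {χ : GK K →* ℤˣ} (hχ : IsLocallyConstant (χ : GK K → ℤˣ)) :
    List.TFAE [IsogAt3 K χ, SplitAt3 K χ, ConstAt3 K χ, ExtSel K χ, CubicAt K χ,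
      CubicRefl K χ] := by
  tfae_have 1 → 2 := split_at
  tfae_have 2 → 3 := const_at
  tfae_have 3 → 1 := isog_at
  tfae_have 2 → 4 := ext_at
  tfae_have 4 → 2 := split_at_of_ext
  tfae_have 2 → 5 := cubic_of_split hχ
  tfae_have 5 → 2 := split_of_cubic
  tfae_have 2 → 6 := refl_of_split hχ
  tfae_have 6 → 5 := cubic_of_refl hχ
  tfae_finish

end Pool.Agent.Helper58.P3
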