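import Pool.Agent.Helper58.P3.ExtH
import Pool.Agent.Helper58.IQ.S2c
import Pool.Agent.Helper58.IQ.Stmt

/-!
# Statements of the pieces E (not imported by anything)
-/

open scoped NumberField Pointwise

namespace Pool.Agent.Helper58.P3

open Pool.Agent.Helper58.IQ Pool.Agent.Helper58.FS

namespace Frame

section abs

variable {G : Type*} [Group G] [TopologicalSpace G] [IsTopologicalGroup G] [CompactSpace G]
  (X : Type*) [MulAction G X] {N T : Type*} [AddCommGroup N] [AddCommGroup T]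

/-! E1 (helper69): Shapiro for a normal subgroup `H` of `K₀` and a module `N` induced from
`K₁ ≤ K₀`. -/

theorem shg_inj {H K₀ K₁ : Subgroup G} (hK : K₁ ≤ K₀) (hH : H ≤ K₀)
    (hno : ∀ g ∈ K₀, ∀ h ∈ H, g * h * g⁻¹ ∈ H)
    (hU : ∃ U : Subgroup G, IsOpen (U : Set G) ∧ U ⊓ K₀ ≤ K₁)
    {a : G → N →+ N} (ha : Act K₀ a) {b : G → T →+ T} (hb : Act K₁ b) [Finite N] [Finite T]
    (e : N →+ T) (he : ∀ g ∈ K₁, ∀ n, e (a g n) = b g (e n))
    (hinj : ∀ n, (∀ g ∈ K₀, e (a g n) = 0) → n = 0) (h : FinSh X b (H ⊓ K₁)) :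
    FinSh X a H := sorry

theorem shg {H K₀ K₁ : Subgroup G} (hK : K₁ ≤ K₀) (hH : H ≤ K₀)
    (hno : ∀ g ∈ K₀, ∀ h ∈ H, g * h * g⁻¹ ∈ H)
    (hU : ∃ U : Subgroup G, IsOpen (U : Set G) ∧ U ⊓ K₀ ≤ K₁)
    {a : G → N →+ N} (ha : Act K₀ a) {b : G → T →+ T} (hb : Act K₁ b) [Finite N] [Finite T]
    (e : N →+ T) (he : ∀ g ∈ K₁, ∀ n, e (a g n) = b g (e n))
    (hinj : ∀ n, (∀ g ∈ K₀, e (a g n) = 0) → n = 0)
    (hsurj : ∀ F : G → T, (∀ g ∈ K₀, ∀ k ∈ K₁, F (g * k) = b k⁻¹ (F g)) →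
      ∃ n, ∀ g ∈ K₀, e (a g⁻¹ n) = F g) :
    FinSh X a H ↔ FinSh X b (H ⊓ K₁) := sorry

end abs

/-! E2 (helper3): the bridge for modules of a subgroup. -/

theorem fin_iffH {K : Type*} [Field K] [NumberField K] {M : Type*} [AddCommGroup M]
    (H : Subgroup (GK K)) (ρ : H →* AddMonoid.End M) :
    FinSelH H ρ ↔ FinSh (Prm (Kb K)) (extH H ρ) (H.map (toQ K)) := sorry

/-! E3 (helper99 or helper21): the determinant of `W[3]`. -/

theorem weil {K : Type*} [Field K] [NumberField K] (hζ : ∃ z : K, z ^ 2 + z + 1 = 0)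
    (W : WeierstrassCurve K) (hW : W.Δ ≠ 0) :
    ∃ B : tor3 W →+ tor3 W →+ ZMod 3, (∀ v, B v v = 0) ∧ (∀ v, v ≠ 0 → ∃ w, B v w ≠ 0) ∧
      ∀ g v w, B (torRep W g v) (torRep W g w) = B v w := sorry

/-! E4 (helper47): odd functions on a group of order 9. -/

theorem odd_exact {G : Type*} [Group G] {V : Type*} [AddCommGroup V]
    (ρ : G →* AddMonoid.End V) (h3 : ∀ v : V, 3 • v = 0) (hc : Nat.card V = 9) :
    Iso (quoRep (oddRep ρ) (Lin V) (lin_stab ρ)) ρ := sorry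

theorem lin_iso {G : Type*} [Group G] {V : Type*} [AddCommGroup V]
    (ρ : G →* AddMonoid.End V) (h3 : ∀ v : V, 3 • v = 0) (hc : Nat.card V = 9)
    (B : V →+ V →+ ZMod 3) (hB : ∀ v, v ≠ 0 → ∃ w, B v w ≠ 0)
    (hg : ∀ g v w, B (ρ g v) (ρ g w) = B v w) :
    Iso ρ (subRep (oddRep ρ) (Lin V) (lin_stab ρ)) := sorry

/-! E6 (helper27). A curve with a stable subgroup `T` of order 3 and another subgroup `C` of
order 3 that is not stable. -/

theorem red_conv {K : Type*} [Field K] [NumberField K] (W : WeierstrassCurve K) (hW : W.Δ ≠ 0)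
    (T C : AddSubgroup (Pts W)) (hs : Stab W T) (hT : T ≤ tor3 W) (hTc : Nat.card T = 3)
    (hC : C ≤ tor3 W) (hCc : Nat.card C = 3) (hn : ¬ Stab W C)
    (h : FinSel (torRep W) (Gcyc K 3)) : FinSelH (gC W C) (qRep W C) := sorry

/-! E5 (helper58). -/

theorem odd_shapiro {K : Type*} [Field K] [NumberField K] (W : WeierstrassCurve K)
    (hW : W.Δ ≠ 0) (C : AddSubgroup (Pts W)) (hC : C ≤ tor3 W) (hCc : Nat.card C = 3)
    (N : AddSubgroup (Odd (tor3 W)))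
    (hN : ∀ f, f ∈ N ↔ ∀ v : tor3 W, (∀ g : GK K, ptsRep W g (v : Pts W) ∉ C) → f.1 v = 0)
    (hs : ∀ g, ∀ f ∈ N, oddRep (torRep W) g f ∈ N) :
    FinSel (subRep (oddRep (torRep W)) N hs) (Gcyc K 3) ↔ FinSelH (gC W C) (cRep W C) := sorry

/-! E7 (helper58). -/

theorem quo_inj {K : Type*} [Field K] [NumberField K] (W : WeierstrassCurve K)
    (hW : W.Δ ≠ 0) (C : AddSubgroup (Pts W)) (hC : C ≤ tor3 W) (hCc : Nat.card C = 3)
    (hn : ¬ Stab W C) (h : FinSelH (gC W C) (qRep W C)) : FinSel (torRep W) (Gcyc K 3) := sorry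

end Frame

end Pool.Agent.Helper58.P3
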