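import Pool.Agent.Helper58.FS.CS

/-!
# Subgroups of order 3, their fields of definition and fine Selmer groups
-/

open scoped NumberField Pointwise

namespace Pool.Agent.Helper58.P3

open Pool.Agent.Helper58.IQ Pool.Agent.Helper58.FS

variable {K : Type*} [Field K]

section

variable {M : Type*} [AddCommGroup M] (H : Subgroup (GK K)) (ρ : H →* AddMonoid.End M)

/-- The continuous cocycles of `H` with values in the `H`-module `M` whose classes are locally
trivial at all primes. -/
def selZH : AddSubgroup (H → M) where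
  carrier := {c | IsLocallyConstant c ∧ (∀ g h : H, c (g * h) = c g + ρ g (c h)) ∧
    ∀ P : Ideal (𝓞 (Kb K)), P.IsPrime → P ≠ ⊥ →
      ∃ m : M, ∀ g : H, (g : GK K) • P = P → c g = ρ g m - m}
  zero_mem' := ⟨IsLocallyConstant.const 0, fun g h => by simp, fun P _ _ => ⟨0, fun g _ => by simp⟩⟩
  add_mem' := by
    rintro c d ⟨hc1, hc2, hc3⟩ ⟨hd1, hd2, hd3⟩
    refine ⟨hc1.add hd1, fun g h => ?_, fun P hP h0 => ?_⟩
    · simp only [Pi.add_apply, hc2 g h, hd2 g h, map_add]
      abel
    · obtain ⟨m, hm⟩ := hc3 P hP h0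
      obtain ⟨n, hn⟩ := hd3 P hP h0
      refine ⟨m + n, fun g hg => ?_⟩
      simp only [Pi.add_apply, hm g hg, hn g hg, map_add]
      abel
  neg_mem' := by
    rintro c ⟨hc1, hc2, hc3⟩
    refine ⟨hc1.neg, fun g h => ?_, fun P hP h0 => ?_⟩
    · simp only [Pi.neg_apply, hc2 g h, map_neg]
      abel
    · obtain ⟨m, hm⟩ := hc3 P hP h0
      refine ⟨-m, fun g hg => ?_⟩
      simp only [Pi.neg_apply, hm g hg, map_neg]
      abel

/-- The coboundaries of `H` with values in the `H`-module `M`. -/
def selBH : AddSubgroup (H → M) where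
  carrier := {c | ∃ m : M, ∀ g : H, c g = ρ g m - m}
  zero_mem' := ⟨0, fun g => by simp⟩
  add_mem' := by
    rintro c d ⟨m, hm⟩ ⟨n, hn⟩
    refine ⟨m + n, fun g => ?_⟩
    simp only [Pi.add_apply, hm g, hn g, map_add]
    abel
  neg_mem' := by
    rintro c ⟨m, hm⟩
    refine ⟨-m, fun g => ?_⟩
    simp only [Pi.neg_apply, hm g, map_neg]
    abel

/-- The fine Selmer group of the `H`-module `M` over the fixed field of `H` (the everywhere
locally trivial classes in `H¹(H, M)`) is finite. -/
def FinSelH : Prop := Finite (selZH H ρ ⧸ (selBH H ρ).addSubgroupOf (selZH H ρ))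

end

/-- The Galois group of `Kb / K(C)`, where `K(C)` is the field of definition of the subgroup `C`
of `W(Kb)`: the group of all `g` with `g(C) = C`. -/
def stabC (W : WeierstrassCurve K) (C : AddSubgroup (Pts W)) : Subgroup (GK K) where
  carrier := {g | ∀ P, ptsRep W g P ∈ C ↔ P ∈ C}
  one_mem' := fun P => by
    rw [map_one]
    rfl
  mul_mem' := by
    intro g h hg hh P
    rw [map_mul]
    exact (hg _).trans (hh P)
  inv_mem' := by
    intro g hg P
    have h1 : ptsRep W g (ptsRep W g⁻¹ P) = P := by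
      change (ptsRep W g * ptsRep W g⁻¹) P = P
      rw [← map_mul, mul_inv_cancel, map_one]
      rfl
    have h2 := hg (ptsRep W g⁻¹ P)
    rw [h1] at h2
    exact h2.symm

/-- The Galois group of `Kb / K(C)_cyc`, where `K(C)_cyc` is the cyclotomic `ℤ_3`-extension of
the field of definition `K(C)` of `C`. -/
noncomputable abbrev gC (W : WeierstrassCurve K) (C : AddSubgroup (Pts W)) : Subgroup (GK K) :=
  stabC W C ⊓ Gcyc K 3

/-- The module `C` over `Gal(Kb / K(C)_cyc)`. -/
noncomputable def cRep (W : WeierstrassCurve K) (C : AddSubgroup (Pts W)) :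
    gC W C →* AddMonoid.End C :=
  subRep ((ptsRep W).comp (gC W C).subtype) C (fun g P hP => (g.2.1 P).2 hP)

/-- The module `W[3] / C` over `Gal(Kb / K(C)_cyc)`. -/
noncomputable def qRep (W : WeierstrassCurve K) (C : AddSubgroup (Pts W)) :
    gC W C →* AddMonoid.End (tor3 W ⧸ C.addSubgroupOf (tor3 W)) :=
  quoRep ((torRep W).comp (gC W C).subtype) (C.addSubgroupOf (tor3 W))
    (fun g P hP => (g.2.1 (P : Pts W)).2 hP)

end Pool.Agent.Helper58.P3
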