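import Pool.Agent.Helper58.P3.Cubic

/-!
# Fine Selmer groups of quadratic characters over quadratic extensions
-/

set_option autoImplicit false

open scoped NumberField Pointwise

namespace Pool.Agent.Helper58.P3

open Pool.Agent.Helper58.IQ Pool.Agent.Helper58.FS

variable {K : Type*} [Field K]

/-- Functions on `{1, -1}`, with the action twisted by `χ`. -/
noncomputable def rhoJ (χ ψ : GK K →* ℤˣ) : GK K →* AddMonoid.End (ℤˣ → ZMod 3) where
  toFun g :=
    { toFun := fun f j => chRep χ g (f (ψ g⁻¹ * j))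
      map_zero' := by
        funext j
        simp
      map_add' := fun f f' => by
        funext j
        simp }
  map_one' := AddMonoidHom.ext fun f => funext fun j => by
    change chRep χ 1 (f (ψ 1⁻¹ * j)) = f j
    rw [inv_one, map_one, map_one, one_mul]
    rfl
  map_mul' g h := AddMonoidHom.ext fun f => funext fun j => by
    change chRep χ (g * h) (f (ψ (g * h)⁻¹ * j)) =
      chRep χ g (chRep χ h (f (ψ h⁻¹ * (ψ g⁻¹ * j))))
    rw [mul_inv_rev, map_mul, map_mul, mul_assoc]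
    rfl

theorem rhoJ_apply (χ ψ : GK K →* ℤˣ) (g : GK K) (f : ℤˣ → ZMod 3) (j : ℤˣ) :
    rhoJ χ ψ g f j = chRep χ g (f (ψ g⁻¹ * j)) := rfl

theorem rhoJ_iso (χ ψ : GK K →* ℤˣ) :
    Iso (rhoJ χ ψ) (prodRep (chRep χ) (chRep (χ * ψ))) := by
  have h33 : (3 : ZMod 3) = 0 := by decide
  let e : (ℤˣ → ZMod 3) ≃+ ZMod 3 × ZMod 3 :=
    { toFun := fun f => (f 1 + f (-1), f 1 - f (-1))
      invFun := fun x j => if j = 1 then -(x.1 + x.2) else -(x.1 - x.2)
      left_inv := fun f => by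
        funext j
        rcases Int.units_eq_one_or j with rfl | rfl
        · change (if (1 : ℤˣ) = 1 then -(f 1 + f (-1) + (f 1 - f (-1))) else _) = f 1
          rw [if_pos rfl]
          linear_combination (-(f 1)) * h33
        · change (if (-1 : ℤˣ) = 1 then _ else -(f 1 + f (-1) - (f 1 - f (-1)))) = f (-1)
          rw [if_neg (by decide)]
          linear_combination (-(f (-1))) * h33
      right_inv := fun x => by
        change ((if (1 : ℤˣ) = 1 then -(x.1 + x.2) else -(x.1 - x.2)) +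
          (if (-1 : ℤˣ) = 1 then -(x.1 + x.2) else -(x.1 - x.2)),
          (if (1 : ℤˣ) = 1 then -(x.1 + x.2) else -(x.1 - x.2)) -
          (if (-1 : ℤˣ) = 1 then -(x.1 + x.2) else -(x.1 - x.2))) = x
        rw [if_pos rfl, if_neg (by decide)]
        refine Prod.ext ?_ ?_
        · change -(x.1 + x.2) + -(x.1 - x.2) = x.1
          linear_combination (-(x.1)) * h33
        · change -(x.1 + x.2) - -(x.1 - x.2) = x.2
          linear_combination (-(x.2)) * h33
      map_add' := fun f f' => by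
        refine Prod.ext ?_ ?_
        · change (f 1 + f' 1) + (f (-1) + f' (-1)) = (f 1 + f (-1)) + (f' 1 + f' (-1))
          ring
        · change (f 1 + f' 1) - (f (-1) + f' (-1)) = (f 1 - f (-1)) + (f' 1 - f' (-1))
          ring }
  refine ⟨e, fun g f => ?_⟩
  rw [prodRep_apply]
  refine Prod.ext ?_ ?_
  · change rhoJ χ ψ g f 1 + rhoJ χ ψ g f (-1) = chRep χ g (f 1 + f (-1))
    rw [rhoJ_apply, rhoJ_apply, ← map_add]
    rcases Int.units_eq_one_or (ψ g⁻¹) with h | h
    · rw [h, one_mul, one_mul]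
    · rw [h, mul_one, neg_mul_neg, one_mul, add_comm]
  · change rhoJ χ ψ g f 1 - rhoJ χ ψ g f (-1) = chRep (χ * ψ) g (f 1 - f (-1))
    rw [rhoJ_apply, rhoJ_apply, ← map_sub, chRep_apply, chRep_apply, MonoidHom.mul_apply]
    have hi : ψ g⁻¹ = ψ g := by
      rw [map_inv]
      rcases Int.units_eq_one_or (ψ g) with h | h
      · rw [h]; rfl
      · rw [h]; rfl
    rcases Int.units_eq_one_or (ψ g) with h | h
    · rw [hi, h, one_mul, one_mul, mul_one]
    · rw [hi, h, mul_one, neg_mul_neg, one_mul, mul_neg, mul_one, Units.val_neg, neg_smul,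
        ← smul_neg, neg_sub]

theorem cont_ker {ψ : GK K →* ℤˣ} (hψ : IsLocallyConstant (ψ : GK K → ℤˣ)) {L : Subgroup (GK K)}
    (hL : ∀ g, g ∈ L ↔ ψ g = 1) : IsOpen (L : Set (GK K)) := by
  have h := hψ {u : ℤˣ | u = 1}
  convert h using 1
  ext g
  exact hL g

variable [NumberField K]

/-- The fine Selmer group of `F_3(χ)` over a quadratic extension. -/
theorem quad {χ ψ : GK K →* ℤˣ} (hχ : IsLocallyConstant (χ : GK K → ℤˣ))
    (hψ : IsLocallyConstant (ψ : GK K → ℤˣ)) (L : Subgroup (GK K))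
    (hL : ∀ g, g ∈ L ↔ ψ g = 1) :
    FinSel (chRep χ) (L ⊓ Gcyc K 3) ↔ A3 (chRep χ) ∧ A3 (chRep (χ * ψ)) := by
  have hχo := cont_chRep hχ
  have hχψ : IsLocallyConstant ((χ * ψ : GK K →* ℤˣ) : GK K → ℤˣ) := hχ.mul hψ
  have hχψo := cont_chRep hχψ
  have halg : Algebra.IsAlgebraic ℚ (Kb K) := Algebra.IsAlgebraic.trans ℚ K (Kb K)
  have hgal : IsGalois ℚ (Kb K) := Pool.Agent.Helper3.FS.isGalois_Q
  by_cases hex : ∃ c ∈ Gcyc K 3, ψ c ≠ 1
  · obtain ⟨c, hc, hc1⟩ := hex
    have hcm : ψ c = -1 := (Int.units_eq_one_or _).resolve_left hc1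
    rw [← a3_prod hχo hχψo (by decide) (by decide), ← a3_iso (rhoJ_iso χ ψ)]
    have hJo : ∀ f : ℤˣ → ZMod 3, IsOpen {g : GK K | rhoJ χ ψ g f = f} := by
      intro f
      have h1 : IsLocallyConstant (fun g : GK K => (χ g, ψ g)) := by
        apply IsLocallyConstant.prodMk hχ hψ
      have h2 := h1 {x : ℤˣ × ℤˣ | ∀ j, ((x.1 : ℤˣ) : ℤ) • f (x.2⁻¹ * j) = f j}
      convert h2 using 1
      ext g
      change rhoJ χ ψ g f = f ↔ ∀ j, ((χ g : ℤˣ) : ℤ) • f ((ψ g)⁻¹ * j) = f j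
      rw [funext_iff]
      refine forall_congr' fun j => ?_
      rw [rhoJ_apply, chRep_apply, map_inv]
    change _ ↔ FinSel (rhoJ χ ψ) (Gcyc K 3)
    rw [Pool.Agent.Helper3.FS.fin_iff (rhoJ χ ψ) hJo, Pool.Agent.Helper3.FS.fin_iff (chRep χ) hχo]
    have hQ := Pool.Agent.Helper3.FS.act_ext (chRep χ) hχo (Gcyc K 3)
    set H := (Gcyc K 3).map (toQ K) with hH
    set H' := (L ⊓ Gcyc K 3).map (toQ K) with hH'
    classical
    let π : GQ (Kb K) → ℤˣ → ℤˣ := fun g => if h : ∃ g' : GK K, toQ K g' = g then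
      fun j => ψ h.choose * j else id
    have hπ : ∀ g : GK K, π (toQ K g) = fun j => ψ g * j := by
      intro g
      have h : ∃ g' : GK K, toQ K g' = toQ K g := ⟨g, rfl⟩
      change (if h : ∃ g' : GK K, toQ K g' = toQ K g then
        fun j => ψ h.choose * j else id) = _
      rw [dif_pos h, toQ_inj K h.choose_spec]
    have hπ1 : ∀ g : GK K, π (toQ K g) 1 = ψ g := fun g => by
      rw [hπ]
      exact mul_one _
    have p1 : π 1 = id := by
      rw [← map_one (toQ K), hπ]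
      funext j
      rw [map_one, one_mul]
      rfl
    have pm : ∀ g ∈ H, ∀ h ∈ H, π (g * h) = π g ∘ π h := by
      rintro _ ⟨g, -, rfl⟩ _ ⟨h, -, rfl⟩
      rw [← map_mul, hπ, hπ, hπ]
      funext j
      rw [map_mul, mul_assoc]
      rfl
    have pc : ∃ U : Subgroup (GQ (Kb K)), IsOpen (U : Set (GQ (Kb K))) ∧
        ∀ u ∈ U ⊓ H, π u = id := by
      refine ⟨L.map (toQ K), Pool.Agent.Helper3.FS.isOpen_map L (cont_ker hψ hL), ?_⟩
      rintro _ ⟨⟨g, hg, rfl⟩, -⟩
      rw [hπ, (hL g).1 hg]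
      funext j
      rw [one_mul]
      rfl
    have ptr : ∀ j, ∃ h ∈ H, π h 1 = j := by
      intro j
      rcases Int.units_eq_one_or j with rfl | rfl
      · exact ⟨1, H.one_mem, by rw [p1]; rfl⟩
      · exact ⟨toQ K c, ⟨c, hc, rfl⟩, by rw [hπ1, hcm]⟩
    have pH' : ∀ g, g ∈ H' ↔ g ∈ H ∧ π g 1 = 1 := by
      intro g
      constructor
      · rintro ⟨g, hg, rfl⟩
        refine ⟨⟨g, hg.2, rfl⟩, ?_⟩
        rw [hπ1, (hL g).1 hg.1]
      · rintro ⟨⟨g, hg, rfl⟩, h1⟩
        rw [hπ1] at h1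
        exact ⟨g, ⟨(hL g).2 h1, hg⟩, rfl⟩
    have hind : ∀ g ∈ H, extAct (rhoJ χ ψ) g = indAct (extAct (chRep χ)) π g := by
      rintro _ ⟨g, -, rfl⟩
      rw [extAct_toQ]
      refine AddMonoidHom.ext fun f => funext fun j => ?_
      change rhoJ χ ψ g f j = extAct (chRep χ) (toQ K g) (f (π (toQ K g)⁻¹ j))
      rw [extAct_toQ, ← map_inv, hπ]
      rfl
    constructor
    · intro h
      exact Pool.Agent.Helper27.FS.fin_congr (Prm (Kb K)) (fun g hg => (hind g hg).symm)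
        (Pool.Agent.Helper69.FS.sh1 (Prm (Kb K)) hQ π p1 pm pc 1 ptr pH' h)
    · intro h
      exact Pool.Agent.Helper69.FS.sh2 (Prm (Kb K)) hQ π p1 pm pc 1 ptr pH'
        (Pool.Agent.Helper27.FS.fin_congr (Prm (Kb K)) hind h)
  · push Not at hex
    have hle : L ⊓ Gcyc K 3 = Gcyc K 3 := by
      apply inf_eq_right.2
      intro g hg
      exact (hL g).2 (hex g hg)
    rw [hle]
    have h1 : A3 (chRep χ) → A3 (chRep (χ * ψ)) := by
      intro h
      change FinSel (chRep χ) (Gcyc K 3) at h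
      change FinSel (chRep (χ * ψ)) (Gcyc K 3)
      rw [Pool.Agent.Helper3.FS.fin_iff (chRep χ) hχo] at h
      rw [Pool.Agent.Helper3.FS.fin_iff (chRep (χ * ψ)) hχψo]
      refine Pool.Agent.Helper27.FS.fin_congr (Prm (Kb K)) ?_ h
      rintro _ ⟨g, hg, rfl⟩
      rw [extAct_toQ, extAct_toQ]
      refine AddMonoidHom.ext fun x => ?_
      change chRep χ g x = chRep (χ * ψ) g x
      rw [chRep_apply, chRep_apply, MonoidHom.mul_apply, hex g hg, mul_one]
    exact ⟨fun h => ⟨h, h1 h⟩, fun h => h.1⟩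

end Pool.Agent.Helper58.P3
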