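import Pool.Agent.Helper58.P3.Cpt
import Pool.Agent.Helper58.IQ.ExtStmt

/-!
# Isogeny invariance of Conjecture A of Coates and Sujatha for `p = 3`: the statements
-/

open scoped NumberField

universe u

namespace Pool.Agent.Helper58.CS

open Pool.Agent.Helper58.IQ

/-- The fine Selmer group of `M` over the cyclotomic `ℤ_3`-extension of `K` is finite. -/
def A3 {K : Type*} [Field K] {M : Type*} [AddCommGroup M] (ρ : GK K →* AddMonoid.End M) : Prop :=
  FinSel ρ (Gcyc K 3)

/-- The fine Selmer group of `M` over the cyclotomic `ℤ_3`-extension of `K(θ)` is finite. -/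
def AtRoot {K : Type*} [Field K] {M : Type*} [AddCommGroup M] (ρ : GK K →* AddMonoid.End M)
    (θ : Kb K) : Prop :=
  FinSel ρ ((IntermediateField.adjoin K {θ}).fixingSubgroup ⊓ Gcyc K 3)

variable (K : Type u) [Field K]

/-- Isogeny invariance of Conjecture A (Q1 for `p = 3` over `K`). -/
def IsogCS : Prop :=
  ∀ W W' : WeierstrassCurve K, W.Δ ≠ 0 → W'.Δ ≠ 0 → Isogenous W W' →
    (ConjCS 3 W ↔ ConjCS 3 W')

variable [CharZero K] (χ : GK K →* ℤˣ)

/-- Isogeny invariance for the curves `W` such that `W[3]` contains `F_3(χ)` or `F_3(χω)`. -/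
def IsogCSAt : Prop :=
  ∀ W W' : WeierstrassCurve K, W.Δ ≠ 0 → W'.Δ ≠ 0 → Has χ W → Has χ W' → Isogenous W W' →
    (ConjCS 3 W ↔ ConjCS 3 W')

/-- For the curves `W` such that `W[3]` contains `F_3(χ)` or `F_3(χω)`: Conjecture A holds for `W`
if and only if the fine Selmer groups of `F_3(χ)` and `F_3(χω)` over the cyclotomic
`ℤ_3`-extension of `K` are finite. -/
def SplitCSAt : Prop :=
  ∀ W : WeierstrassCurve K, W.Δ ≠ 0 → Has χ W →
    (ConjCS 3 W ↔ A3 (chRep χ) ∧ A3 (chRep (χ * om K)))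

/-- Conjecture A holds for all or for none of the curves `W` such that `W[3]` contains `F_3(χ)`
or `F_3(χω)`. -/
def ConstCSAt : Prop :=
  ∀ W W' : WeierstrassCurve K, W.Δ ≠ 0 → W'.Δ ≠ 0 → Has χ W → Has χ W' →
    (ConjCS 3 W ↔ ConjCS 3 W')

/-- For every continuous module `M` killed by 3 with a submodule `N` such that `N` and `M / N`
are `F_3(χ)` and `F_3(χω)`, in either order: the fine Selmer group of `M` is finite if and only if
those of `F_3(χ)` and `F_3(χω)` are. -/
def ExtSel : Prop :=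
  ∀ (M : Type u) [AddCommGroup M] (ρ : GK K →* AddMonoid.End M) (N : AddSubgroup M)
    (hN : ∀ g, ∀ x ∈ N, ρ g x ∈ N), (∀ x : M, 3 • x = 0) → Cont ρ →
    ((Iso (subRep ρ N hN) (chRep χ) ∧ Iso (quoRep ρ N hN) (chRep (χ * om K))) ∨
      (Iso (subRep ρ N hN) (chRep (χ * om K)) ∧ Iso (quoRep ρ N hN) (chRep χ))) →
    (A3 ρ ↔ A3 (chRep χ) ∧ A3 (chRep (χ * om K)))

/-- For every pure cubic extension `B = K(θ)` of `K` (`θ³ = δ`, where `δ` is in `K` and not a
cube in `K`): if the fine Selmer group of `F_3(χ)` over the cyclotomic `ℤ_3`-extension of `B` is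
finite, then that of `F_3(χω)` over the cyclotomic `ℤ_3`-extension of `K` is finite; and the same
with `χ` and `χω` exchanged. -/
def CubicAt : Prop :=
  ∀ (θ : Kb K) (δ : K), θ ^ 3 = algebraMap K (Kb K) δ → (∀ c : K, c ^ 3 ≠ δ) →
    (AtRoot (chRep χ) θ → A3 (chRep (χ * om K))) ∧ (AtRoot (chRep (χ * om K)) θ → A3 (chRep χ))

/-- For every pure cubic extension `B = K(θ)` of `K`: the fine Selmer group of `F_3(χ)` over the
cyclotomic `ℤ_3`-extension of `B` is finite if and only if that of `F_3(χω)` is. -/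
def CubicRefl : Prop :=
  ∀ (θ : Kb K) (δ : K), θ ^ 3 = algebraMap K (Kb K) δ → (∀ c : K, c ^ 3 ≠ δ) →
    (AtRoot (chRep χ) θ ↔ AtRoot (chRep (χ * om K)) θ)

end Pool.Agent.Helper58.CS
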