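import Pool.Agent.Helper58.P3.St3

/-!
# Pairs of isogenous curves and the cube roots of their discriminants: the statement
-/

open scoped NumberField

namespace Pool.Agent.Helper58.CS

open Pool.Agent.Helper58.IQ

variable {K : Type*} [Field K]

/-- For every cube root `θ` of the discriminant of `W`, the fine Selmer group of `T` over the
cyclotomic `ℤ_3`-extension of `K(θ)` is finite. -/
def DiscFin (W : WeierstrassCurve K) (T : AddSubgroup (Pts W)) (hs : Stab W T) : Prop :=
  ∀ θ : Kb K, θ ^ 3 = algebraMap K (Kb K) W.Δ → AtRoot (lineRep W T hs) θ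

end Pool.Agent.Helper58.CS
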