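import Pool.Agent.Helper58.P3.St3

/-!
# The curves `y² = x³ + k`: the statements
-/

open scoped NumberField

universe u

namespace Pool.Agent.Helper58.CS

open Pool.Agent.Helper58.IQ

/-- The curve `y² = x³ + k`. -/
def mordell {K : Type u} [Field K] (k : K) : WeierstrassCurve K where
  a₁ := 0
  a₂ := 0
  a₃ := 0
  a₄ := 0
  a₆ := k

/-- For every `k` in `d K^{×2}`, Conjecture A at 3 holds for the curve `y² = x³ + k` if and only if
it holds for the isogenous curve `y² = x³ - 27 k`. -/
def MordAt (K : Type u) [Field K] (d : K) : Prop :=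
  ∀ u : K, u ≠ 0 →
    (ConjCS 3 (mordell (d * u ^ 2)) ↔ ConjCS 3 (mordell (-27 * (d * u ^ 2))))

end Pool.Agent.Helper58.CS
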